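import Pool.Agent.Lib.MP_1a91b9_ntW.R.Arith8
import Pool.Agent.Lib.MP_1a91b9_ntH.R.Sym
import Pool.Agent.Lib.MP_1a91b9_ntH.D.Defs
import Pool.Agent.Lib.MP_1a91b9_ntE.A.MatE

/-!
# Phase 6: the primes, the symbols, the matrices, the curves over `ℚ(√-2)`

`Pg`: the prime elements `q` with `Pr q`: every prime ideal prime to `2` has exactly one such
generator. `sy q p`: the exponent of the quadratic symbol of `p` modulo `q`. `GW k j S`: the
determinant of the page, section 0. `WW d`: the curve `y² = x³ + 4 d x² + 2 d² x`.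
-/

set_option autoImplicit false

namespace Pool.Agent.Lib.MP_1a91b9_ntW

open NumberField Finset
open Pool.Agent.Lib.MP_1a91b9_ntH (PS)
open Pool.Agent.Lib.MP_1a91b9_ntH.R (qs)
open Pool.Agent.Lib.MP_1a91b9_ntE (MM BB)

noncomputable section

theorem Nz_two_le {x : 𝓞 K8} (hx : Prime x) : 2 ≤ Nz x := by
  have h1 : Nz x ≠ 0 := fun h => hx.ne_zero (Nz_eq_zero.1 h)
  have h2 : Nz x ≠ 1 := fun h => hx.not_isUnit (isUnit_iff_Nz.2 h)
  omega

theorem Nz_fin (n : ℕ) : {x : 𝓞 K8 | Nz x ≤ n}.Finite := by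
  have h : {x : 𝓞 K8 | Nz x ≤ n} ⊆ (fun p : ℤ × ℤ => ((p.1 : 𝓞 K8) + p.2 * lam)) ''
      ((Set.Icc (-(n : ℤ)) n) ×ˢ (Set.Icc (-(n : ℤ)) n)) := by
    intro x hx
    have hx' : Nz x ≤ n := hx
    refine ⟨cp x, ?_, (eq_cp x).symm⟩
    have h1 := Nz_cp x
    have h2 : (cp x).1 ^ 2 + 2 * (cp x).2 ^ 2 ≤ n := by
      rw [← h1]
      exact_mod_cast hx'
    have key : ∀ z : ℤ, z ^ 2 ≤ n → -(n : ℤ) ≤ z ∧ z ≤ n := by
      intro z hz
      have h3 := Int.le_self_sq z
      have h4 := Int.le_self_sq (-z)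
      constructor <;> nlinarith
    have h5 := sq_nonneg (cp x).1
    have h6 := sq_nonneg (cp x).2
    exact ⟨key _ (by linarith), key _ (by linarith)⟩
  exact (((Set.finite_Icc (-(n : ℤ)) n).prod (Set.finite_Icc (-(n : ℤ)) n)).image _).subset h

/-- The normalised primes. -/
def Pg : Type := {α : 𝓞 K8 // Prime α ∧ Pr α}

instance : DecidableEq Pg := Classical.decEq _

instance psPg : PS Pg where
  N q := Nz q.1
  two_le q := Nz_two_le q.2.1
  fin n := by
    have h := (Nz_fin n).preimage (f := (Subtype.val : Pg → 𝓞 K8)) Subtype.val_injective.injOn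
    exact h

theorem PN_eq (q : Pg) : PS.N q = Nz q.1 := rfl

/-- The exponent of the quadratic symbol of `p` modulo `q`. -/
def sy (q p : Pg) : ZMod 2 := if qs p.1 q.1 = 1 then 0 else 1

open Classical in
/-- The quadratic symbol of `x` modulo `q`. -/
def qc (q : Pg) (x : 𝓞 K8) : ℤ := if q.1 ∣ x then 0 else qs x q.1

/-- The element of a squarefree integer. -/
def DD (S : Finset Pg) : 𝓞 K8 := ∏ q ∈ S, q.1

/-- The bit `A`. -/
def AS (S : Finset Pg) : ZMod 2 := ∑ q ∈ S, aa q.1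

/-- The bit `l` of `S`. -/
def lS (S : Finset Pg) : ZMod 2 := ∑ q ∈ S, ll q.1

/-- The primes with `a = 0`. -/
def S0 (S : Finset Pg) : Finset Pg := S.filter fun q => aa q.1 = 0

/-- The primes with `a = 1`. -/
def S1 (S : Finset Pg) : Finset Pg := S.filter fun q => aa q.1 = 1

/-- The symbols, `0` in the rows of the primes with `a = 1`. -/
def sW (q p : Pg) : ZMod 2 := if aa q.1 = 0 then sy q p else 0

/-- The diagonal bits, `1` in the rows of the primes with `a = 1`. -/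
def xW (j : ZMod 2) (q : Pg) : ZMod 2 := if aa q.1 = 0 then rr q.1 + j * ll q.1 else 1

/-- The border. -/
def lW (q : Pg) : ZMod 2 := if aa q.1 = 0 then ll q.1 else 0

/-- The determinant which decides. -/
def GW (k j : ZMod 2) (S : Finset Pg) : ZMod 2 :=
  if j = 0 ∨ AS S = 1 then (MM sW (xW j) S).det
  else (BB sW (xW 1) lW lW (k + lS S) S).det

/-- The element `d = (-1)^k lam^(1-j) DD S`. -/
def dW (k j : ZMod 2) (S : Finset Pg) : 𝓞 K8 := (-1) ^ k.val * lam ^ (1 - j.val) * DD S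

/-- The curve `y² = x³ + 4 d x² + 2 d² x`. -/
def WW (d : 𝓞 K8) : WeierstrassCurve K8 := ⟨0, 4 * (d : K8), 0, 2 * (d : K8) ^ 2, 0⟩

theorem WW_c4 (d : 𝓞 K8) : (WW d).c₄ = 160 * (d : K8) ^ 2 := by
  simp only [WW, WeierstrassCurve.c₄, WeierstrassCurve.b₂, WeierstrassCurve.b₄]
  ring

theorem WW_delta (d : 𝓞 K8) : (WW d).Δ = 512 * (d : K8) ^ 6 := by
  simp only [WW, WeierstrassCurve.Δ, WeierstrassCurve.b₂, WeierstrassCurve.b₄, WeierstrassCurve.b₆,
    WeierstrassCurve.b₈]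
  ring

theorem Pr_DD (S : Finset Pg) : Pr (DD S) := Pr.prod S _ fun q _ => q.2.2

theorem aa_DD (S : Finset Pg) : aa (DD S) = AS S := aa_prod S _ fun q _ => q.2.2

theorem ll_DD (S : Finset Pg) : ll (DD S) = lS S := ll_prod S _ fun q _ => q.2.2

theorem DD_empty : DD ∅ = 1 := prod_empty

theorem DD_insert {S : Finset Pg} {q : Pg} (h : q ∉ S) : DD (insert q S) = q.1 * DD S :=
  prod_insert h

theorem DD_ne (S : Finset Pg) : DD S ≠ 0 := prod_ne_zero_iff.2 fun q _ => q.2.1.ne_zero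

/-- Associated normalised primes are equal. -/
theorem Pg_eq {q p : Pg} (h : q.1 ∣ p.1) : q = p := by
  obtain ⟨u, hu⟩ := (q.2.1.dvd_prime_iff_associated p.2.1).1 h
  rcases isUnit_iff.1 u.isUnit with h1 | h1
  · rw [h1, mul_one] at hu
    exact Subtype.ext hu
  · exfalso
    rw [h1] at hu
    have h2 := p.2.2
    rw [← hu] at h2
    have e : q.1 * -1 = -q.1 := by ring
    rw [e] at h2
    exact not_Pr_neg q.2.2 h2

theorem Pg_not_lam (q : Pg) : ¬ lam ∣ q.1 := q.2.2.odd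

/-- Every odd prime element is a normalised prime up to the sign. -/
theorem exists_Pg {x : 𝓞 K8} (hx : Prime x) (h : ¬ lam ∣ x) : ∃ q : Pg, q.1 = x ∨ q.1 = -x := by
  rcases Pr_or_neg h with h1 | h1
  · exact ⟨⟨x, hx, h1⟩, Or.inl rfl⟩
  · exact ⟨⟨-x, hx.neg, h1⟩, Or.inr rfl⟩

end

end Pool.Agent.Lib.MP_1a91b9_ntW
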