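import Pool.Agent.Lib.MP_1a91b9_ntW.R.Defs8
import Pool.Agent.Lib.MP_1a91b9_ntR.Rcp
import Pool.Agent.Lib.MP_1a91b9_ntR.Jac2
import Pool.Agent.Lib.MP_1a91b9_ntR.OK

/-!
# Phase 6, `ℚ(√-2)`: the instances of the generic part R, the reciprocity law, the supplementary laws

`cc q x`: the exponent of the quadratic symbol of `x` modulo the normalised prime `q`.
-/

set_option autoImplicit false

namespace Pool.Agent.Lib.MP_1a91b9_ntW

open NumberField Finset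
open Pool.Agent.Lib.MP_1a91b9_ntH (PS)
open Pool.Agent.Lib.MP_1a91b9_ntH.R (qs)
open Pool.Agent.Lib.MP_1a91b9_ntR (Qi Pri nG nG_cast nfG mulG js Rd)

noncomputable section

/-- The form `x² + 2 y²`. -/
def F8 : Pool.Agent.Lib.MP_1a91b9_ntR.Frm := ⟨0, 2, Or.inl rfl, by norm_num, by norm_num⟩

instance qi8 : Qi (𝓞 K8) where
  F := F8
  co := coE
  co_mul x y := by
    change cp (x * y) = mulG F8 (cp x) (cp y)
    rw [cp_mul]
    simp only [mulG, F8]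
    refine Prod.ext ?_ ?_
    · simp only
      ring
    · simp only
      ring

theorem nG_cp (x : 𝓞 K8) : (nG x : ℤ) = (cp x).1 ^ 2 + 2 * (cp x).2 ^ 2 := by
  rw [nG_cast]
  change (cp x).1 ^ 2 + (0 : ℤ) * (cp x).1 * (cp x).2 + 2 * (cp x).2 ^ 2 = _
  ring

theorem nG_eq_Nz (x : 𝓞 K8) : nG x = Nz x := by
  have h : (nG x : ℤ) = (Nz x : ℤ) := by rw [nG_cp, Nz_cp]
  exact_mod_cast h

theorem lam_coprime {x : 𝓞 K8} (h : ¬ lam ∣ x) : IsCoprime lam x :=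
  (lam_prime.irreducible.coprime_iff_not_dvd).2 h

theorem coprime_four {x : 𝓞 K8} (h : ¬ lam ∣ x) : IsCoprime x (4 : 𝓞 K8) := by
  rw [← lam_pow4]
  exact (lam_coprime h).symm.pow_right

theorem Pr_mul_iff {x y : 𝓞 K8} (hx : Pr x) : Pr (x * y) ↔ Pr y := by
  constructor
  · intro h
    have h1 : ¬ lam ∣ y := fun h2 => h.odd (h2.mul_left x)
    rcases Pr_or_neg h1 with h2 | h2
    · exact h2
    · exfalso
      have h3 := hx.mul h2
      rw [mul_neg] at h3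
      exact not_Pr_neg h h3
  · intro h
    exact hx.mul h

instance pri8 : Pri (𝓞 K8) where
  In := Pr
  M := 4
  ne := by
    rw [← lam_pow4]
    exact pow_ne_zero _ lam_ne_zero
  in_one := Pr.one
  mul_in _ _ hx := Pr_mul_iff hx
  con _ _ h hx := (Pr_congr h).1 hx
  zero h := h.odd (dvd_zero _)
  cop _ hx := coprime_four hx.odd
  odd x hx := by
    have h1 := nG_cp x
    have h2 := (Pr_iff.1 hx).1
    have h3 : (cp x).1 ^ 2 % 2 = 1 := by
      rw [pow_two, Int.mul_emod, h2]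
      rfl
    omega
  unit u hu hP := by
    rcases isUnit_iff.1 hu with h | h
    · exact h
    · exact absurd (h ▸ hP) (not_Pr_neg Pr.one)
  ex x hx := by
    have h1 : ¬ lam ∣ x := by
      intro h
      have h2 : lam ∣ (4 : 𝓞 K8) := by
        rw [← lam_pow4]
        exact dvd_pow_self lam (by norm_num)
      exact lam_not_unit (hx.isUnit_of_dvd' h h2)
    rcases Pr_or_neg h1 with h2 | h2
    · exact ⟨1, isUnit_one, by rw [one_mul]; exact h2⟩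
    · exact ⟨-1, isUnit_one.neg, by rw [neg_one_mul]; exact h2⟩

theorem Pg_eq_Pg : Pool.Agent.Lib.MP_1a91b9_ntR.Pg (𝓞 K8) = Pg := rfl

/-- The two structures of a set of primes agree. -/
theorem ps_eq : (Pool.Agent.Lib.MP_1a91b9_ntR.psPg : PS (Pool.Agent.Lib.MP_1a91b9_ntR.Pg (𝓞 K8))) =
    psPg := by
  have h : (fun q : Pg => nG q.1) = fun q : Pg => Nz q.1 := by
    funext q
    exact nG_eq_Nz q.1
  have key : ∀ (A B : PS Pg), A.N = B.N → A = B := by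
    rintro ⟨n1, a1, b1⟩ ⟨n2, a2, b2⟩ h
    subst h
    rfl
  exact key _ _ h

/-- The exponent of the quadratic symbol of `x` modulo `q`. -/
def cc (q : Pg) (x : 𝓞 K8) : ZMod 2 := Pool.Agent.Lib.MP_1a91b9_ntR.c2 (R := 𝓞 K8) q x

open Classical in
theorem cc_def (q : Pg) (x : 𝓞 K8) : cc q x = if ∃ y, q.1 ∣ y ^ 2 - x then 0 else 1 := rfl

theorem sy_eq (q p : Pg) : sy q p = cc q p.1 := by
  classical
  rw [cc_def, sy]
  by_cases h : ∃ y, q.1 ∣ y ^ 2 - p.1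
  · rw [if_pos h, if_pos]
    unfold qs
    rw [if_pos h]
  · rw [if_neg h, if_neg]
    unfold qs
    rw [if_neg h]
    norm_num

/-- The condition on the coordinates. -/
def CW (c d : ℤ) : Prop := c % 2 = 1 ∧ (d % 4 = 1 ∨ (d % 2 = 0 ∧ (c + d) % 4 = 1))

/-- The exponent of `(E / M² + 2 E²)`. -/
def hW (E : ℤ) : ZMod 2 := if E % 4 = 3 then 1 else 0

theorem mod4 (E k : ℤ) (h0 : 0 ≤ k) (h4 : k < 4) : E % 4 = k ↔ (E : ZMod 4) = (k : ZMod 4) := by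
  have h : (E : ZMod 4) = (k : ZMod 4) ↔ (4 : ℤ) ∣ E - k := by
    rw [← sub_eq_zero (a := (E : ZMod 4)), ← Int.cast_sub, ZMod.intCast_zmod_eq_zero_iff_dvd]
    rfl
  rw [h]
  omega

theorem mod42 (E k : ℤ) (h0 : 0 ≤ k) (h4 : k < 2) :
    E % 2 = k ↔ ((E : ZMod 4) = (k : ZMod 4) ∨ (E : ZMod 4) = ((k + 2 : ℤ) : ZMod 4)) := by
  rw [← mod4 E k h0 (by linarith), ← mod4 E (k + 2) (by linarith) (by linarith)]
  omega

theorem CW_iff (c d : ℤ) : CW c d ↔ ((c : ZMod 4) = 1 ∨ (c : ZMod 4) = 3) ∧ ((d : ZMod 4) = 1 ∨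
    (((d : ZMod 4) = 0 ∨ (d : ZMod 4) = 2) ∧ (c : ZMod 4) + (d : ZMod 4) = 1)) := by
  unfold CW
  rw [mod42 c 1 (by norm_num) (by norm_num), mod4 d 1 (by norm_num) (by norm_num),
    mod42 d 0 (by norm_num) (by norm_num), mod4 (c + d) 1 (by norm_num) (by norm_num)]
  push_cast
  norm_num

theorem hW_eq (E : ℤ) : hW E = if (E : ZMod 4) = 3 then 1 else 0 := by
  unfold hW
  have h := mod4 E 3 (by norm_num) (by norm_num)
  push_cast at h
  simp only [h]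

theorem par4 (E : ℤ) : (E : ZMod 2) = if (E : ZMod 4) = 1 ∨ (E : ZMod 4) = 3 then 1 else 0 := by
  have h := mod42 E 1 (by norm_num) (by norm_num)
  push_cast at h
  norm_num at h
  have h2 : (E : ZMod 2) = if E % 2 = 1 then 1 else 0 := by
    split_ifs with h3
    · rw [← sub_eq_zero, ← Int.cast_one, ← Int.cast_sub, ZMod.intCast_zmod_eq_zero_iff_dvd]
      push_cast
      omega
    · rw [ZMod.intCast_zmod_eq_zero_iff_dvd]
      push_cast
      omega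
  rw [h2]
  simp only [h]

theorem fin8 (x y c d : ZMod 4)
    (h1 : (x = 1 ∨ x = 3) ∧ (y = 1 ∨ ((y = 0 ∨ y = 2) ∧ x + y = 1)))
    (h2 : (c = 1 ∨ c = 3) ∧ (d = 1 ∨ ((d = 0 ∨ d = 2) ∧ c + d = 1))) :
    (if x * d - y * c = 3 then (1 : ZMod 2) else 0) + (if x ^ 2 + 2 * y ^ 2 = 3 then 1 else 0) +
      (if d = 3 then 1 else 0) + (if y = 3 then 1 else 0) =
      (if y = 1 ∨ y = 3 then 1 else 0) * (if d = 1 ∨ d = 3 then 1 else 0) := by
  revert h1 h2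
  revert x y c d
  decide +kernel

/-- The 2-adic data of `ℤ[√-2]`. -/
theorem rd8 : Rd (𝓞 K8) 2 lam CW hW (fun y => (y : ZMod 2)) where
  sq := by
    rw [lam_sq]
    push_cast
    rfl
  unit u hu := cp_unit (by rw [← nG_eq_Nz]; exact hu)
  form x hx := ⟨(cp x).1, (cp x).2, eq_cp x, nG_cp x, Pr_iff.1 hx⟩
  inj r c d h := by
    have h1 : (r : 𝓞 K8) + ((0 : ℤ) : 𝓞 K8) * lam = (c : 𝓞 K8) + (d : 𝓞 K8) * lam := by
      rw [Int.cast_zero, zero_mul, add_zero]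
      exact h
    have h2 := coords_inj h1
    exact ⟨h2.1.symm, h2.2.symm⟩
  jsz E M N hN hE0 hc h := by
    have hM : M % 2 = 1 := by
      rcases Int.emod_two_eq_zero_or_one M with h1 | h1
      · exfalso
        obtain ⟨k, rfl⟩ : ∃ k, M = 2 * k := ⟨M / 2, by omega⟩
        have h2 : (N : ℤ) = 2 * (2 * k ^ 2 + E ^ 2) := by rw [h]; ring
        omega
      · exact h1
    obtain ⟨k, rfl⟩ : ∃ k, M = 2 * k + 1 := ⟨M / 2, by omega⟩
    have hkk : k * (k + 1) % 2 = 0 := Int.even_iff.1 (Int.even_mul_succ_self k)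
    have hd : E ∣ (N : ℤ) - (2 * k + 1) ^ 2 := ⟨2 * E, by rw [h]; ring⟩
    rcases Int.emod_two_eq_zero_or_one E with h1 | h1
    · have h8 : N % 8 = 1 := by
        obtain ⟨e, rfl⟩ : ∃ e, E = 2 * e := ⟨E / 2, by omega⟩
        have h2 : (N : ℤ) = 4 * (k * (k + 1)) + 1 + 8 * e ^ 2 := by rw [h]; ring
        omega
      rw [Pool.Agent.Lib.MP_1a91b9_ntR.js_eight h8 E hE0 hc hd, hW, if_neg (by omega)]
    · have h4 : N % 4 = 3 := by
        obtain ⟨e, rfl⟩ : ∃ e, E = 2 * e + 1 := ⟨E / 2, by omega⟩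
        have h2 : (N : ℤ) = 4 * (k * (k + 1)) + 8 * (e * (e + 1)) + 3 := by rw [h]; ring
        omega
      rw [Pool.Agent.Lib.MP_1a91b9_ntR.js_odd hN hc hd h1, hW]
      simp only [h4, true_and]
  fin x y c d hx hc := by
    rw [CW_iff] at hx hc
    have h := fin8 _ _ _ _ hx hc
    rw [hW_eq, hW_eq, hW_eq, par4 y, par4 d, ← h]
    have e1 : (x ^ 2 + 2 * y ^ 2) % 4 = 3 ↔ ((x : ZMod 4) ^ 2 + 2 * (y : ZMod 4) ^ 2 = 3) := by
      have := mod4 (x ^ 2 + 2 * y ^ 2) 3 (by norm_num) (by norm_num)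
      push_cast at this
      exact this
    simp only [e1]
    push_cast
    rfl
  rat c h := by
    unfold CW at h
    omega
  bt0 := by simp

/-- **The quadratic reciprocity law in `ℤ[√-2]`.** -/
theorem cc_recip (p q : Pg) (h : p ≠ q) : cc p q.1 = cc q p.1 + aa p.1 * aa q.1 := by
  have h1 := rd8.recip (A := p) (B := q) h (eq_cp p.1) (eq_cp q.1) (Pr_iff.1 p.2.2)
    (Pr_iff.1 q.2.2) (nG_cp p.1) (nG_cp q.1)
  rw [aa_cp, aa_cp]
  have key : ∀ a b c : ZMod 2, b + a = c → a = b + c := by decide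
  exact key _ _ _ h1

theorem sy_recip (p q : Pg) (h : p ≠ q) : sy p q = sy q p + aa p.1 * aa q.1 := by
  rw [sy_eq, sy_eq]
  exact cc_recip p q h

theorem cc_mul (q : Pg) {x y : 𝓞 K8} (hx : ¬ q.1 ∣ x) (hy : ¬ q.1 ∣ y) :
    cc q (x * y) = cc q x + cc q y :=
  Pool.Agent.Lib.MP_1a91b9_ntR.c2_mul (R := 𝓞 K8) q hx hy

theorem cc_congr (q : Pg) {x y : 𝓞 K8} (h : q.1 ∣ x - y) : cc q x = cc q y :=
  Pool.Agent.Lib.MP_1a91b9_ntR.c2_congr (R := 𝓞 K8) q h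

theorem exists_cc (q : Pg) : ∃ x : 𝓞 K8, ¬ q.1 ∣ x ∧ cc q x = 1 :=
  Pool.Agent.Lib.MP_1a91b9_ntR.exists_c2 (R := 𝓞 K8) q

theorem cc_sq (q : Pg) (x : 𝓞 K8) : cc q (x ^ 2) = 0 := by
  rw [cc_def, if_pos]
  exact ⟨x, by simp⟩

theorem not_dvd_neg_one (q : Pg) : ¬ q.1 ∣ (-1 : 𝓞 K8) := fun h =>
  q.2.1.not_isUnit (isUnit_of_dvd_unit h isUnit_one.neg)

theorem not_dvd_lam (q : Pg) : ¬ q.1 ∣ lam := by
  intro h
  have h1 := (q.2.1.associated_of_dvd lam_prime h)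
  exact q.2.2.odd h1.symm.dvd

/-- **The supplementary law for `-1`.** -/
theorem cc_neg_one (q : Pg) : cc q (-1) = aa q.1 := by
  have h := Pool.Agent.Lib.MP_1a91b9_ntR.c2_neg_one (R := 𝓞 K8) q
  have h1 := nG_cp q.1
  have h2 := (Pr_iff.1 q.2.2).1
  change cc q (-1) = _ at h
  rw [h, aa_cp]
  obtain ⟨k, hk⟩ : ∃ k, (cp q.1).1 = 2 * k + 1 := ⟨(cp q.1).1 / 2, by omega⟩
  rw [hk] at h1
  rcases Int.emod_two_eq_zero_or_one (cp q.1).2 with h3 | h3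
  · obtain ⟨e, he⟩ : ∃ e, (cp q.1).2 = 2 * e := ⟨(cp q.1).2 / 2, by omega⟩
    have h4 : (nG q.1 : ℤ) = 4 * (k ^ 2 + k + 2 * e ^ 2) + 1 := by
      rw [h1, he]
      ring
    rw [if_neg (by omega), eq_comm, ZMod.intCast_zmod_eq_zero_iff_dvd]
    push_cast
    omega
  · obtain ⟨e, he⟩ : ∃ e, (cp q.1).2 = 2 * e + 1 := ⟨(cp q.1).2 / 2, by omega⟩
    have h4 : (nG q.1 : ℤ) = 4 * (k ^ 2 + k + 2 * e ^ 2 + 2 * e) + 3 := by
      rw [h1, he]
      ring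
    rw [if_pos (by omega), eq_comm, ← sub_eq_zero, ← Int.cast_one, ← Int.cast_sub,
      ZMod.intCast_zmod_eq_zero_iff_dvd]
    push_cast
    omega

/-- **The supplementary law for `2`.** -/
theorem cc_two (q : Pg) : cc q 2 = aa q.1 := by
  have h1 : ¬ q.1 ∣ lam ^ 2 := fun h => not_dvd_lam q (q.2.1.dvd_of_dvd_pow h)
  have e : (2 : 𝓞 K8) = -1 * lam ^ 2 := by rw [lam_sq]; ring
  rw [e, cc_mul q (not_dvd_neg_one q) h1, cc_sq, cc_neg_one, add_zero]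

/-- the values of `ll` -/
theorem ll_cp {x : 𝓞 K8} (hx : Pr x) : ll x =
    (if (cp x).2 % 2 = 1 ∧ (cp x).1 % 4 = 1 then 1 else 0) +
    (if (cp x).1 % 8 = 3 ∨ (cp x).1 % 8 = 5 then 1 else 0) := by
  rw [Pr_iff] at hx
  rw [ll, cz_fst_congr, cz_snd_congr]
  have h3 := Int.emod_nonneg (cp x).1 (b := 8) (by norm_num)
  have h4 := Int.emod_lt_of_pos (cp x).1 (b := 8) (by norm_num)
  have h5 := Int.emod_nonneg (cp x).2 (b := 8) (by norm_num)
  have h6 := Int.emod_lt_of_pos (cp x).2 (b := 8) (by norm_num)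
  have e1 : (cp x).1 % 2 = ((cp x).1 % 8) % 2 := by omega
  have e2 : (cp x).2 % 4 = ((cp x).2 % 8) % 4 := by omega
  have e3 : (cp x).2 % 2 = ((cp x).2 % 8) % 2 := by omega
  have e5 : (cp x).1 % 4 = ((cp x).1 % 8) % 4 := by omega
  have e4 : ((cp x).1 + (cp x).2) % 4 = ((cp x).1 % 8 + (cp x).2 % 8) % 4 := by omega
  rw [e1, e2, e3, e4] at hx
  rw [e3, e5]
  revert hx
  generalize (cp x).1 % 8 = a at *
  generalize (cp x).2 % 8 = b at *
  clear e1 e2 e3 e4 e5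
  interval_cases a <;> interval_cases b <;> decide

/-- **The supplementary law for `lam`.** -/
theorem cc_lam (q : Pg) : cc q lam = ll q.1 := by
  have hP := q.2.2
  rw [ll_cp hP]
  have hC : CW (cp q.1).1 (cp q.1).2 := Pr_iff.1 hP
  rcases rd8.cases q (eq_cp q.1) hC with ⟨p, hp, hp2, hN⟩ | ⟨p, hp, hp2, hN, hd, hc, h0, h4⟩
  · have hNm : (cp q.1).1 ^ 2 + 2 * (cp q.1).2 ^ 2 = p := by rw [← nG_cp, hN]
    have hn : ¬ q.1 ∣ ((0 : ℤ) : 𝓞 K8) + ((1 : ℤ) : 𝓞 K8) * lam := by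
      rw [Int.cast_zero, Int.cast_one, zero_add, one_mul]
      exact not_dvd_lam q
    obtain ⟨a1, a2, a3⟩ := Pool.Agent.Lib.MP_1a91b9_ntR.c2_split (R := 𝓞 K8) q hp hN rd8.sq
      (eq_cp q.1) hNm hn
    rw [Int.cast_zero, Int.cast_one, zero_add, one_mul] at a3
    have e0 : (0 : ℤ) * (cp q.1).2 - 1 * (cp q.1).1 = -(cp q.1).1 := by ring
    rw [e0] at a2 a3
    change cc q lam = _ at a3
    have hpo : p % 2 = 1 := Nat.odd_iff.1 (hp.odd_of_ne_two hp2)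
    have cd := Pool.Agent.Lib.MP_1a91b9_ntR.coprime_of_not_dvd hp a1
    have cm := Pool.Agent.Lib.MP_1a91b9_ntR.coprime_of_not_dvd hp a2
    have hd0 : (cp q.1).2 ≠ 0 := by
      intro h0
      rw [h0] at a1
      exact a1 (dvd_zero _)
    have k2 := rd8.jsz (cp q.1).2 (cp q.1).1 p hpo hd0 cd hNm.symm
    have hdv : -(cp q.1).1 ∣ (p : ℤ) - 2 * (cp q.1).2 ^ 2 :=
      ⟨-(cp q.1).1, by rw [← hNm]; ring⟩
    have hco : (cp q.1).1 % 2 = 1 := hC.1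
    have k1 := Pool.Agent.Lib.MP_1a91b9_ntR.js_odd2 hpo cm hdv (by omega)
    rw [a3, k1, k2, hW]
    obtain ⟨k, hk⟩ : ∃ k, (cp q.1).1 = 2 * k + 1 := ⟨(cp q.1).1 / 2, by omega⟩
    have e8 : (-(cp q.1).1 % 8 = 3 ∨ -(cp q.1).1 % 8 = 5) ↔
        ((cp q.1).1 % 8 = 3 ∨ (cp q.1).1 % 8 = 5) := by omega
    simp only [e8]
    have e4 : -(cp q.1).1 % 4 = 3 ↔ (cp q.1).1 % 4 = 1 := by omega
    simp only [e4]
    rcases Int.emod_two_eq_zero_or_one (cp q.1).2 with h3 | h3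
    · obtain ⟨e, he⟩ : ∃ e, (cp q.1).2 = 2 * e := ⟨(cp q.1).2 / 2, by omega⟩
      have h4 : (p : ℤ) = 4 * (k ^ 2 + k + 2 * e ^ 2) + 1 := by
        rw [← hNm, hk, he]
        ring
      have f1 : ¬ p % 4 = 3 := by omega
      have f2 : ¬ (cp q.1).2 % 4 = 3 := by omega
      have f3 : ¬ ((cp q.1).2 % 2 = 1 ∧ (cp q.1).1 % 4 = 1) := fun h => by omega
      rw [if_neg (fun h => f1 h.1), if_neg f2, if_neg f3, add_zero]
    · obtain ⟨e, he⟩ : ∃ e, (cp q.1).2 = 2 * e + 1 := ⟨(cp q.1).2 / 2, by omega⟩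
      have h4 : (p : ℤ) = 4 * (k ^ 2 + k + 2 * e ^ 2 + 2 * e) + 3 := by
        rw [← hNm, hk, he]
        ring
      have f1 : p % 4 = 3 := by omega
      have f2 : ¬ (cp q.1).2 % 4 = 3 := by
        have := hC.2
        omega
      rw [if_neg f2, add_zero]
      simp only [f1, h3, true_and]
  · have h1 := (Pool.Agent.Lib.MP_1a91b9_ntR.c2_inert (R := 𝓞 K8) q hp hp2 hN hd
      (not_dvd_lam q)).2
    change cc q lam = _ at h1
    have hpo : p % 2 = 1 := Nat.odd_iff.1 (hp.odd_of_ne_two hp2)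
    have e : ((nG lam : ℕ) : ℤ) = 2 := by rw [nG_eq_Nz, Nz_lam]; rfl
    have f3 : ¬ ((0 : ℤ) % 2 = 1 ∧ (cp q.1).1 % 4 = 1) := fun h => by omega
    rw [h1, e, Pool.Agent.Lib.MP_1a91b9_ntR.js_two hpo, h0, if_neg f3, zero_add]
    by_cases h8 : p % 8 = 1 ∨ p % 8 = 7
    · have f4 : ¬ ((cp q.1).1 % 8 = 3 ∨ (cp q.1).1 % 8 = 5) := by omega
      rw [if_pos h8, if_neg f4]
    · have f4 : (cp q.1).1 % 8 = 3 ∨ (cp q.1).1 % 8 = 5 := by omega
      rw [if_neg h8, if_pos f4]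

end

end Pool.Agent.Lib.MP_1a91b9_ntW
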