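import Pool.Agent.Lib.MP_1a91b9_ntW.R.Defs8

/-!
# Phase 6: the quadratic symbols `qc q x` over `ℚ(√-2)`

`qc q x` is the quadratic character of the residue field at the class of `x`.
-/

set_option autoImplicit false

namespace Pool.Agent.Lib.MP_1a91b9_ntW

open NumberField Finset
open Pool.Agent.Lib.MP_1a91b9_ntH.R (qs qs_eq_one_iff qs_or)

noncomputable section

theorem Pg_maximal (q : Pg) : (Ideal.span {q.1}).IsMaximal :=
  Ideal.IsPrime.isMaximal ((Ideal.span_singleton_prime q.2.1.ne_zero).2 q.2.1)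
    (fun h => q.2.1.ne_zero (Ideal.span_singleton_eq_bot.1 h))

theorem absNorm_span8 (x : 𝓞 K8) : Ideal.absNorm (Ideal.span {x}) = Nz x := by
  rw [Ideal.absNorm_span_singleton, Nz]

theorem card_quot8 {x : 𝓞 K8} (_hx : x ≠ 0) : Nat.card (𝓞 K8 ⧸ Ideal.span {x}) = Nz x := by
  rw [← absNorm_span8, Ideal.absNorm_apply, Submodule.cardQuot_apply]

theorem Nz_four (q : Pg) : (Nz q.1 : ZMod 4) = 1 + 2 * (((aa q.1).val : ℕ) : ZMod 4) := by
  have h1 := Nz_cp q.1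
  have h2 := (Pr_iff.1 q.2.2).1
  have h3 : ((Nz q.1 : ℕ) : ZMod 4) = (((cp q.1).1 ^ 2 + 2 * (cp q.1).2 ^ 2 : ℤ) : ZMod 4) := by
    rw [← h1]
    push_cast
    rfl
  rw [h3, aa_cp]
  obtain ⟨a, ha⟩ : ∃ a, a = (cp q.1).1 := ⟨_, rfl⟩
  obtain ⟨b, hb⟩ : ∃ b, b = (cp q.1).2 := ⟨_, rfl⟩
  rw [← ha] at h2 ⊢
  rw [← hb]
  obtain ⟨k, hk⟩ : ∃ k, a = 2 * k + 1 := ⟨a / 2, by omega⟩
  have h4 : ((a : ZMod 4)) ^ 2 = 1 := by
    rw [hk]
    push_cast
    have : ∀ x : ZMod 4, (2 * x + 1) ^ 2 = 1 := by decide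
    exact this _
  have hs : b = 2 * (b / 2) + b % 2 := by omega
  have h5 : b % 2 = 0 ∨ b % 2 = 1 := by omega
  push_cast
  rw [h4]
  congr 1
  rcases h5 with h5 | h5
  · have e : (b : ZMod 2) = 0 := by
      rw [ZMod.intCast_zmod_eq_zero_iff_dvd]
      push_cast
      omega
    rw [e, hs, h5]
    push_cast
    have : ∀ x : ZMod 4, 2 * (2 * x + 0) ^ 2 = 2 * ((((0 : ZMod 2).val : ℕ)) : ZMod 4) := by decide
    exact this _
  · have e : (b : ZMod 2) = 1 := by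
      have : ((b - 1 : ℤ) : ZMod 2) = 0 := by
        rw [ZMod.intCast_zmod_eq_zero_iff_dvd]
        push_cast
        omega
      push_cast at this
      exact sub_eq_zero.1 this
    rw [e, hs, h5]
    push_cast
    have : ∀ x : ZMod 4, 2 * (2 * x + 1) ^ 2 = 2 * ((((1 : ZMod 2).val : ℕ)) : ZMod 4) := by decide
    exact this _

theorem Nz_odd (q : Pg) : Nz q.1 % 2 = 1 := by
  have h1 := Nz_cp q.1
  have h2 := (Pr_iff.1 q.2.2).1
  have h3 : ((cp q.1).1 ^ 2 + 2 * (cp q.1).2 ^ 2) % 2 = 1 := by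
    have : ((cp q.1).1 ^ 2) % 2 = 1 := by
      rw [pow_two, Int.mul_emod, h2]
      rfl
    omega
  omega

/-- The residue field. -/
theorem residue8 (q : Pg) : ∃ (F : Type) (_ : Field F) (_ : Fintype F) (_ : DecidableEq F)
    (f : 𝓞 K8 →+* F), Function.Surjective f ∧ (∀ x, f x = 0 ↔ q.1 ∣ x) ∧ ringChar F ≠ 2 ∧
      Fintype.card F = Nz q.1 ∧ ∀ x, qc q x = quadraticChar F (f x) := by
  classical
  have i1 := Pg_maximal q
  let _ : Field (𝓞 K8 ⧸ Ideal.span {q.1}) := Ideal.Quotient.field _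
  have hfin : Finite (𝓞 K8 ⧸ Ideal.span {q.1}) := Ideal.finiteQuotientOfFreeOfNeBot _ (by
    rw [Ne, Ideal.span_singleton_eq_bot]
    exact q.2.1.ne_zero)
  let _ : Fintype (𝓞 K8 ⧸ Ideal.span {q.1}) := Fintype.ofFinite _
  have hcard : Fintype.card (𝓞 K8 ⧸ Ideal.span {q.1}) = Nz q.1 := by
    rw [← Nat.card_eq_fintype_card, card_quot8 q.2.1.ne_zero]
  have hk : ∀ x, Ideal.Quotient.mk (Ideal.span {q.1}) x = 0 ↔ q.1 ∣ x := fun x => by
    rw [Ideal.Quotient.eq_zero_iff_mem, Ideal.mem_span_singleton]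
  have h2 : ringChar (𝓞 K8 ⧸ Ideal.span {q.1}) ≠ 2 := by
    intro h
    have h1 := FiniteField.even_card_of_char_two h
    rw [hcard, Nz_odd q] at h1
    exact one_ne_zero h1
  refine ⟨𝓞 K8 ⧸ Ideal.span {q.1}, inferInstance, inferInstance, inferInstance,
    Ideal.Quotient.mk _, Ideal.Quotient.mk_surjective, hk, h2, hcard, fun x => ?_⟩
  unfold qc
  split_ifs with h
  · rw [(hk x).2 h, quadraticChar_eq_zero_iff.2 rfl]
  · have hx : Ideal.Quotient.mk (Ideal.span {q.1}) x ≠ 0 := fun h0 => h ((hk x).1 h0)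
    have h3 : qs x q.1 = 1 ↔ IsSquare (Ideal.Quotient.mk (Ideal.span {q.1}) x) := by
      rw [qs_eq_one_iff]
      constructor
      · rintro ⟨y, hy⟩
        refine ⟨Ideal.Quotient.mk _ y, ?_⟩
        rw [← hk, map_sub, map_pow, sub_eq_zero] at hy
        rw [← hy, sq]
      · rintro ⟨z, hz⟩
        obtain ⟨y, rfl⟩ := Ideal.Quotient.mk_surjective z
        refine ⟨y, ?_⟩
        rw [← hk, map_sub, map_pow, hz, sq, sub_self]
    rcases quadraticChar_dichotomy hx with h4 | h4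
    · rw [h4]
      exact h3.2 ((quadraticChar_one_iff_isSquare hx).1 h4)
    · rw [h4]
      rcases qs_or x q.1 with h5 | h5
      · exact absurd (h3.1 h5) (quadraticChar_neg_one_iff_not_isSquare.1 h4)
      · exact h5

theorem qc_mul (q : Pg) (x y : 𝓞 K8) : qc q (x * y) = qc q x * qc q y := by
  obtain ⟨F, _, _, _, f, -, -, -, -, h⟩ := residue8 q
  rw [h, h, h, map_mul, map_mul]

theorem qc_one (q : Pg) : qc q 1 = 1 := by
  obtain ⟨F, _, _, _, f, -, -, -, -, h⟩ := residue8 q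
  rw [h, map_one, map_one]

theorem qc_pow (q : Pg) (x : 𝓞 K8) (n : ℕ) : qc q (x ^ n) = qc q x ^ n := by
  obtain ⟨F, _, _, _, f, -, -, -, -, h⟩ := residue8 q
  rw [h, h, map_pow, map_pow]

theorem qc_prod (q : Pg) {ι : Type*} (S : Finset ι) (g : ι → 𝓞 K8) :
    qc q (∏ i ∈ S, g i) = ∏ i ∈ S, qc q (g i) := by
  obtain ⟨F, _, _, _, f, -, -, -, -, h⟩ := residue8 q
  rw [h, map_prod, map_prod]
  exact Finset.prod_congr rfl fun i _ => (h _).symm

theorem qc_congr (q : Pg) {x y : 𝓞 K8} (hxy : q.1 ∣ x - y) : qc q x = qc q y := by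
  obtain ⟨F, _, _, _, f, -, hk, -, -, h⟩ := residue8 q
  rw [h, h]
  congr 1
  rw [← hk, map_sub, sub_eq_zero] at hxy
  exact hxy

theorem qc_of_dvd {q : Pg} {x : 𝓞 K8} (h : q.1 ∣ x) : qc q x = 0 := by
  unfold qc
  exact if_pos h

theorem qc_of_not {q : Pg} {x : 𝓞 K8} (h : ¬ q.1 ∣ x) : qc q x = qs x q.1 := by
  unfold qc
  exact if_neg h

theorem qc_or {q : Pg} {x : 𝓞 K8} (h : ¬ q.1 ∣ x) : qc q x = 1 ∨ qc q x = -1 := by
  rw [qc_of_not h]
  exact qs_or _ _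

theorem qc_eq_zero {q : Pg} {x : 𝓞 K8} : qc q x = 0 ↔ q.1 ∣ x := by
  constructor
  · intro h
    by_contra h1
    rcases qc_or h1 with h2 | h2 <;> rw [h] at h2 <;> norm_num at h2
  · exact qc_of_dvd

theorem qc_sq {q : Pg} {x : 𝓞 K8} (h : ¬ q.1 ∣ x) : qc q x ^ 2 = 1 := by
  rcases qc_or h with h1 | h1 <;> rw [h1] <;> norm_num

theorem exists_qc (q : Pg) : ∃ x : 𝓞 K8, qc q x = -1 := by
  obtain ⟨F, _, _, _, f, hs, -, h2, -, h⟩ := residue8 q
  obtain ⟨a, ha⟩ := FiniteField.exists_nonsquare (F := F) h2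
  obtain ⟨x, rfl⟩ := hs a
  exact ⟨x, by rw [h]; exact quadraticChar_neg_one_iff_not_isSquare.2 ha⟩

/-- `(-1 / q)` -/
theorem qc_neg_one (q : Pg) : qc q (-1) = (-1) ^ (aa q.1).val := by
  obtain ⟨F, _, _, _, f, -, -, h2, hc, h⟩ := residue8 q
  rw [h, map_neg, map_one, quadraticChar_neg_one h2, hc, Nz_four]
  have : ∀ a : ZMod 2, ZMod.χ₄ (1 + 2 * ((a.val : ℕ) : ZMod 4)) = (-1) ^ a.val := by decide
  exact this _

theorem qc_neg (q : Pg) (x : 𝓞 K8) : qc q (-x) = (-1) ^ (aa q.1).val * qc q x := by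
  rw [← qc_neg_one, ← qc_mul, neg_one_mul]

theorem Pg_not_dvd {p q : Pg} (h : p ≠ q) : ¬ p.1 ∣ q.1 := fun hd => h (Pg_eq hd)

theorem Pg_cop {p q : Pg} (h : p ≠ q) : IsCoprime p.1 q.1 :=
  p.2.1.irreducible.coprime_iff_not_dvd.2 (Pg_not_dvd h)

/-- the symbol of a prime -/
theorem qc_prime {q p : Pg} (h : q ≠ p) : qc q p.1 = (-1) ^ (sy q p).val := by
  rw [qc_of_not (Pg_not_dvd h), sy]
  split_ifs with h1
  · rw [h1]
    simp
  · have h2 := (qs_or p.1 q.1).resolve_left h1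
    rw [h2, ZMod.val_one, pow_one]

/-- the symbol of `DD T` -/
theorem qc_DD {q : Pg} {T : Finset Pg} (h : q ∉ T) :
    qc q (DD T) = (-1) ^ (∑ t ∈ T, sy q t).val := by
  have key : ∀ T : Finset Pg, q ∉ T → ∏ t ∈ T, qc q t.1 = (-1) ^ (∑ t ∈ T, sy q t).val := by
    intro T
    induction T using Finset.induction_on with
    | empty => intro _; simp
    | insert t T ht ih =>
      intro hq
      rw [Finset.mem_insert, not_or] at hq
      rw [Finset.prod_insert ht, Finset.sum_insert ht, ih hq.2, qc_prime hq.1]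
      have : ∀ a b : ZMod 2, ((-1 : ℤ)) ^ a.val * (-1) ^ b.val = (-1) ^ (a + b).val := by decide
      exact this _ _
  rw [DD, qc_prod]
  exact key T h

/-- the symbol of `q` modulo `DD T` -/
theorem prod_qc {q : Pg} {T : Finset Pg} (h : q ∉ T) :
    ∏ t ∈ T, qc t q.1 = (-1) ^ (∑ t ∈ T, sy t q).val := by
  induction T using Finset.induction_on with
  | empty => simp
  | insert t T ht ih =>
    rw [Finset.mem_insert, not_or] at h
    rw [Finset.prod_insert ht, Finset.sum_insert ht, ih h.2, qc_prime (Ne.symm h.1)]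
    have : ∀ a b : ZMod 2, ((-1 : ℤ)) ^ a.val * (-1) ^ b.val = (-1) ^ (a + b).val := by decide
    exact this _ _

end

end Pool.Agent.Lib.MP_1a91b9_ntW
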