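import Pool.Agent.Lib.MP_1a91b9_ntW.R.ClsB8
import Pool.Agent.Lib.MP_1a91b9_ntR.DenB
import Pool.Agent.Lib.MP_1a91b9_ntQ.Q.Const4

/-!
# Phase 7, `ℚ(√-2)`: the density of the squarefree `d` for which all the twists `a d` are good

`DSJ8`: the joint density of the good sets of primes (part D). `den8_all`: the conclusion for the
squarefree elements.
-/

set_option autoImplicit false

namespace Pool.Agent.Lib.MP_1a91b9_ntW

open NumberField Finset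
open Pool.Agent.Lib.MP_1a91b9_ntH (PS pr mem_pr sg nm Sx mem_Sx)
open Pool.Agent.Lib.MP_1a91b9_ntQ (Dat2 Cl2 Off up sum_Sx_off)
open Pool.Agent.Lib.MP_1a91b9_ntQ.Da (cinf2)
open Pool.Agent.Lib.MP_1a91b9_ntR (nG Qi Pri sys GR cq GRB cqB c2 mu SRB SPB mem_SRB mem_SPB DSBR
  DSJR)

noncomputable section

open Classical in
/-- The sets of primes outside `B` with the property `P` have lower density at least `κ₀` in the
class `g`. -/
def DSB8 (n : ℕ) (B : Finset Pg) (g : GRB (mod8 n) B) (κ₀ : ℝ) (P : Finset Pg → Prop) : Prop :=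
  ∀ ε : ℝ, 0 < ε → ∃ X₀ : ℕ, ∀ X : ℕ, X₀ ≤ X →
    κ₀ * (((Sx Pg X).filter fun S => Disjoint S B ∧ ∑ q ∈ S, cB8 n B q = g).card : ℝ) - ε * X ≤
      (((Sx Pg X).filter fun S => Disjoint S B ∧ ∑ q ∈ S, cB8 n B q = g ∧ P S).card : ℝ)

/-- The joint density of the good sets of primes (part D). -/
def DSJ8 : Prop := ∀ (N : ℕ), 0 < N → ∀ (k j : Fin N → ZMod 2) (T : Fin N → Finset Pg)
  (B : Finset Pg), (∀ i, T i ⊆ B) → Function.Injective (fun i => (k i, j i, T i)) →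
  ∀ (n : ℕ) (g : GRB (mod8 n) B) (κ₀ : ℝ), κ₀ < cinf2 ^ N →
  DSB8 n B g κ₀ fun S => ∀ i, GW (k i) (j i) (S ∪ T i) ≠ 0

theorem SRB8_card (n : ℕ) (B : Finset Pg) (g : GRB (mod8 n) B) (X : ℕ)
    [DecidablePred fun S : Finset Pg => Disjoint S B ∧ ∑ q ∈ S, cB8 n B q = g] :
    ((Sx Pg X).filter fun S => Disjoint S B ∧ ∑ q ∈ S, cB8 n B q = g).card =
      (SRB (mod8 n) B g X).card := by
  congr 1
  ext S
  rw [mem_filter, mem_Sx]
  have h := mem_SRB (hQ := mod8 n) (B := B) (g := g) (X := X) (S := S)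
  rw [nm_eq] at h
  exact h.symm

theorem SPB8_card (n : ℕ) (B : Finset Pg) (g : GRB (mod8 n) B) (X : ℕ) (P : Finset Pg → Prop)
    [DecidablePred fun S : Finset Pg => Disjoint S B ∧ ∑ q ∈ S, cB8 n B q = g ∧ P S] :
    ((Sx Pg X).filter fun S => Disjoint S B ∧ ∑ q ∈ S, cB8 n B q = g ∧ P S).card =
      (SPB (mod8 n) B g X P).card := by
  congr 1
  ext S
  rw [mem_filter, mem_Sx]
  have h := mem_SRB (hQ := mod8 n) (B := B) (g := g) (X := X) (S := S)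
  rw [nm_eq] at h
  have h' := mem_SPB (hQ := mod8 n) (B := B) (g := g) (X := X) (P := P) (S := S)
  rw [h] at h'
  refine Iff.trans ?_ h'.symm
  constructor
  · rintro ⟨a, b, c, d⟩
    exact ⟨⟨a, b, c⟩, d⟩
  · rintro ⟨⟨a, b, c⟩, d⟩
    exact ⟨a, b, c, d⟩

theorem DSB8.dsbr {n : ℕ} {B : Finset Pg} {g : GRB (mod8 n) B} {κ₀ : ℝ} {P : Finset Pg → Prop}
    (h : DSB8 n B g κ₀ P) : DSBR (mod8 n) B g κ₀ P := by
  intro ε hε
  obtain ⟨X₀, hX⟩ := h ε hε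
  refine ⟨X₀, fun X hX' => ?_⟩
  have h1 := hX X hX'
  rw [SRB8_card, SPB8_card] at h1
  exact h1

theorem dsjr8 (hJ : DSJ8) (n : ℕ) : DSJR (mod8 n) Go8 cinf2 := by
  intro N hN i T B hT hinj g κ₀ hκ
  refine (hJ N hN (fun a => (i a).1) (fun a => (i a).2 () + 1) T B hT ?_ n g κ₀ hκ).dsbr
  intro a b hab
  apply hinj
  simp only [Prod.mk.injEq] at hab
  refine Prod.ext (Prod.ext hab.1 ?_) hab.2.2
  funext x
  exact add_right_cancel hab.2.1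

/-- **The density of the squarefree `d` for which all the twists by the elements of `L` are good.** -/
theorem den8_all (hJ : DSJ8) {L : List (𝓞 K8)} (hL : L ≠ []) (hne : ∀ a ∈ L, a ≠ 0)
    (hpw : L.Pairwise fun a b : 𝓞 K8 => ¬ ∃ y : K8, y ^ 2 = (a : K8) * b)
    {n : ℕ} {M u : 𝓞 K8} (hM : M ∣ 2 ^ n) (hu : ¬ ((2 : 𝓞 K8) ∣ M ∧ (2 : 𝓞 K8) ∣ u))
    (Pr : 𝓞 K8 → Prop)
    (hPr : ∀ d : 𝓞 K8, Squarefree d → (∀ a ∈ L, ∃ (k j : ZMod 2) (S : Finset Pg) (t : 𝓞 K8),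
      t ≠ 0 ∧ a * d = dW k j S * t ^ 2 ∧ GW k j S ≠ 0) → Pr d)
    (ε : ℝ) (hε : 0 < ε) :
    ∀ᶠ X : ℝ in Filter.atTop,
      (∏' i : ℕ, (1 + 1 / (2 : ℝ) ^ (i + 1))⁻¹) ^ L.length - ε ≤
      (Nat.card {x : 𝓞 K8 // Squarefree x ∧ M ∣ x - u ∧ |Algebra.norm ℤ x| ≤ X ∧ Pr x} : ℝ) /
        (Nat.card {x : 𝓞 K8 // Squarefree x ∧ M ∣ x - u ∧ |Algebra.norm ℤ x| ≤ X} : ℝ) := by
  rw [Pool.Agent.Lib.MP_1a91b9_ntQ.cinf2_form]
  have hm' : M ∣ (2 : 𝓞 K8) ^ (n + 3) := hM.trans (pow_dvd_pow _ (by omega))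
  refine bad8.den_all (mod8 n) (two_pow_ne n) (dsjr8 hJ n) hL hne ?_ hm'
    (fun a => cls_two hM hu _ (bad8.prime a)) Pr ?_ (by linarith)
  · refine hpw.imp fun {a b} h => ?_
    rintro ⟨y, hy⟩
    exact h ⟨(y : K8), by exact_mod_cast congrArg (fun z : 𝓞 K8 => (z : K8)) hy⟩
  · intro d hd h
    refine hPr d hd fun a ha => ?_
    obtain ⟨i, S, t, h1, h2, h3⟩ := h a ha
    refine ⟨i.1, i.2 () + 1, S, t, h1, ?_, h3⟩
    rw [h2, ← mu8, ← ix8]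
    rfl

end

end Pool.Agent.Lib.MP_1a91b9_ntW
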