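import Pool.Agent.Lib.MP_1a91b9_ntW.R.Den8
import Pool.Agent.Lib.MP_1a91b9_ntQ.Q.Const4

/-!
# Phase 6, `ℚ(√-2)`: the density of the good squarefree elements, the final form
-/

set_option autoImplicit false

namespace Pool.Agent.Lib.MP_1a91b9_ntW

open NumberField Finset

/-- **The density of the good elements**, in a class modulo a divisor of a power of `2`. -/
theorem limit8 {n : ℕ} {M u : 𝓞 K8} (hM : M ∣ 2 ^ n)
    (hu : ¬ ((2 : 𝓞 K8) ∣ M ∧ (2 : 𝓞 K8) ∣ u)) (Pr8 : 𝓞 K8 → Prop)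
    (hPr : ∀ k j S, (Pr8 (dW k j S) ↔ GW k j S ≠ 0)) :
    Filter.Tendsto (fun X : ℝ =>
      (Nat.card {x : 𝓞 K8 // Squarefree x ∧ M ∣ x - u ∧ |Algebra.norm ℤ x| ≤ X ∧ Pr8 x} : ℝ) /
        (Nat.card {x : 𝓞 K8 // Squarefree x ∧ M ∣ x - u ∧ |Algebra.norm ℤ x| ≤ X} : ℝ))
      Filter.atTop (nhds (∏' i : ℕ, (1 + 1 / (2 : ℝ) ^ (i + 1))⁻¹)) := by
  rw [Pool.Agent.Lib.MP_1a91b9_ntQ.cinf2_form]
  exact limit8' hM hu Pr8 hPr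

end Pool.Agent.Lib.MP_1a91b9_ntW
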