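import Pool.Agent.Lib.MP_1a91b9_ntW.Base

/-!
# Phase 6: elementary arithmetic of `ℤ[√-2]`

Coordinates, norm, units, the prime `lam = √-2`, the normalised elements `Pr` (the classes
`1, 1 + lam, -1 + 2 lam, -1 + lam` modulo `4`, the powers of `1 + lam`), the bits `aa`, `ll`, `rr`.
-/

set_option autoImplicit false

namespace Pool.Agent.Lib.MP_1a91b9_ntW

open NumberField Pool.Agent.Lib.MP_1a91b9_nuT Pool.Agent.Lib.MP_1a91b9_nuX.UF

noncomputable section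

/-- `lam = √-2`. -/
abbrev lam : 𝓞 K8 := lam8

theorem lam_sq : lam ^ 2 = -2 := lam8_sq

theorem lam_mul_lam : lam * lam = -2 := by rw [← pow_two, lam_sq]

theorem lam_pow4 : lam ^ 4 = 4 := by
  linear_combination (lam ^ 2 - 2) * lam_sq

theorem two_eq : (2 : 𝓞 K8) = -lam ^ 2 := by
  rw [lam_sq]
  ring

/-- The embedding of the integers. -/
def f8 : 𝓞 K8 →+* ℂ := fK 0 2 good8.pos

theorem f8_coord (m n : ℤ) : f8 ((m : 𝓞 K8) + n * lam) = ((m : ℝ) : ℂ) + ((n : ℝ) : ℂ) * tt 0 2 := by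
  have h : f8 ((m : 𝓞 K8) + n * lam) = m + n * tt 0 2 := fK_coord good8.pos m n
  rw [h]
  push_cast
  rfl

theorem coords_inj {p q p' q' : ℤ} (h : (p : 𝓞 K8) + q * lam = p' + q' * lam) :
    p = p' ∧ q = q' := by
  have h3 := congrArg f8 h
  rw [f8_coord, f8_coord] at h3
  have h4 := coord_inj good8.pos h3
  exact ⟨by exact_mod_cast h4.1, by exact_mod_cast h4.2⟩

/-- The coordinates. -/
def cp (x : 𝓞 K8) : ℤ × ℤ := ⟨(gen8 x).choose, (gen8 x).choose_spec.choose⟩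

theorem eq_cp (x : 𝓞 K8) : x = (cp x).1 + (cp x).2 * lam :=
  (gen8 x).choose_spec.choose_spec

theorem cp_coords (p q : ℤ) : cp ((p : 𝓞 K8) + q * lam) = (p, q) := by
  have h := coords_inj (eq_cp ((p : 𝓞 K8) + q * lam)).symm
  exact Prod.ext h.1 h.2

theorem cp_add (x y : 𝓞 K8) : cp (x + y) = cp x + cp y := by
  have h : cp (x + y) = ((cp x).1 + (cp y).1, (cp x).2 + (cp y).2) := by
    rw [← cp_coords]
    congr 1
    conv_lhs => rw [eq_cp x, eq_cp y]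
    push_cast
    ring
  rw [h]
  rfl

theorem cp_mul (x y : 𝓞 K8) : cp (x * y) = ((cp x).1 * (cp y).1 - 2 * ((cp x).2 * (cp y).2),
    (cp x).1 * (cp y).2 + (cp x).2 * (cp y).1) := by
  rw [← cp_coords]
  congr 1
  conv_lhs => rw [eq_cp x, eq_cp y]
  push_cast
  linear_combination ((cp x).2 : 𝓞 K8) * (cp y).2 * lam_sq

theorem cp_intCast (n : ℤ) : cp (n : 𝓞 K8) = (n, 0) := by
  have h := cp_coords n 0
  simpa using h

theorem cp_one : cp (1 : 𝓞 K8) = (1, 0) := by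
  have h := cp_intCast 1
  simpa using h

theorem cp_zero : cp (0 : 𝓞 K8) = (0, 0) := by
  have h := cp_intCast 0
  simpa using h

theorem cp_neg (x : 𝓞 K8) : cp (-x) = -cp x := by
  have h := cp_add x (-x)
  rw [add_neg_cancel, cp_zero] at h
  exact (neg_eq_of_add_eq_zero_right h.symm).symm

theorem cp_sub (x y : 𝓞 K8) : cp (x - y) = cp x - cp y := by
  rw [sub_eq_add_neg, cp_add, cp_neg, ← sub_eq_add_neg]

theorem cp_inj {x y : 𝓞 K8} (h : cp x = cp y) : x = y := by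
  rw [eq_cp x, eq_cp y, h]

theorem cp_lam : cp lam = (0, 1) := by
  have h := cp_coords 0 1
  simpa using h

/-- The coordinates as an equivalence of additive groups. -/
def coE : 𝓞 K8 ≃+ ℤ × ℤ where
  toFun := cp
  invFun z := z.1 + z.2 * lam
  left_inv x := (eq_cp x).symm
  right_inv z := cp_coords z.1 z.2
  map_add' := cp_add

theorem ext_cp {x y : 𝓞 K8} (h1 : (cp x).1 = (cp y).1) (h2 : (cp x).2 = (cp y).2) : x = y :=
  cp_inj (Prod.ext h1 h2)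

/-! ### The norm -/

/-- The coordinates as a linear equivalence. -/
def coL : 𝓞 K8 ≃ₗ[ℤ] (Fin 2 → ℤ) where
  toFun x := ![(cp x).1, (cp x).2]
  invFun v := v 0 + v 1 * lam
  left_inv x := (eq_cp x).symm
  right_inv v := by
    ext i
    fin_cases i
    · simp [cp_coords]
    · simp [cp_coords]
  map_add' x y := by
    rw [cp_add]
    ext i
    fin_cases i <;> simp
  map_smul' n x := by
    have h : n • x = (n : 𝓞 K8) * x := by simp
    rw [h, cp_mul, cp_intCast]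
    ext i
    fin_cases i <;> simp

/-- The integral basis `1, lam`. -/
def bas : Module.Basis (Fin 2) ℤ (𝓞 K8) := Module.Basis.ofEquivFun coL

theorem bas_zero : bas 0 = 1 := by
  have h : bas 0 = coL.symm (Pi.single 0 1) := by
    rw [bas, Module.Basis.coe_ofEquivFun]
  rw [h]
  show (((Pi.single (0 : Fin 2) (1 : ℤ) : Fin 2 → ℤ) 0 : ℤ) : 𝓞 K8) +
    (((Pi.single (0 : Fin 2) (1 : ℤ) : Fin 2 → ℤ) 1 : ℤ) : 𝓞 K8) * lam = 1
  simp

theorem bas_one : bas 1 = lam := by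
  have h : bas 1 = coL.symm (Pi.single 1 1) := by
    rw [bas, Module.Basis.coe_ofEquivFun]
  rw [h]
  show (((Pi.single (1 : Fin 2) (1 : ℤ) : Fin 2 → ℤ) 0 : ℤ) : 𝓞 K8) +
    (((Pi.single (1 : Fin 2) (1 : ℤ) : Fin 2 → ℤ) 1 : ℤ) : 𝓞 K8) * lam = lam
  simp

theorem norm_cp (x : 𝓞 K8) : Algebra.norm ℤ x = (cp x).1 ^ 2 + 2 * (cp x).2 ^ 2 := by
  have hr : ∀ y : 𝓞 K8, ∀ i : Fin 2, bas.repr y i = ![(cp y).1, (cp y).2] i := by
    intro y i
    rfl
  rw [Algebra.norm_eq_matrix_det bas, Matrix.det_fin_two]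
  simp only [Algebra.leftMulMatrix_eq_repr_mul, bas_zero, bas_one, hr, cp_mul, cp_one, cp_lam]
  simp
  ring

/-- The norm. -/
def Nz (x : 𝓞 K8) : ℕ := (Algebra.norm ℤ x).natAbs

theorem Nz_mul (x y : 𝓞 K8) : Nz (x * y) = Nz x * Nz y := by
  rw [Nz, map_mul, Int.natAbs_mul]; rfl

theorem Nz_one : Nz 1 = 1 := by simp [Nz]

theorem norm_nonneg8 (x : 𝓞 K8) : 0 ≤ Algebra.norm ℤ x := by
  rw [norm_cp]
  positivity

theorem Nz_cast (x : 𝓞 K8) : (Nz x : ℤ) = Algebra.norm ℤ x := by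
  rw [Nz, Int.natCast_natAbs, abs_of_nonneg (norm_nonneg8 x)]

theorem Nz_cp (x : 𝓞 K8) : (Nz x : ℤ) = (cp x).1 ^ 2 + 2 * (cp x).2 ^ 2 := by
  rw [Nz_cast, norm_cp]

theorem Nz_coords (p q : ℤ) : (Nz ((p : 𝓞 K8) + q * lam) : ℤ) = p ^ 2 + 2 * q ^ 2 := by
  rw [Nz_cp, cp_coords]

theorem emb8_coords (p q : ℤ) : emb8 (((p : 𝓞 K8) + q * lam : 𝓞 K8) : K8) = p + q * tt 0 2 :=
  fK_coord good8.pos p q

theorem emb8_cp (x : 𝓞 K8) : emb8 (x : K8) = (cp x).1 + (cp x).2 * tt 0 2 := by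
  conv_lhs => rw [eq_cp x]
  exact emb8_coords _ _

/-- The norm is the square of the absolute value. -/
theorem Nz_eq (x : 𝓞 K8) : (Nz x : ℝ) = ‖emb8 (x : K8)‖ ^ 2 := by
  have h := normSq_tt good8.pos (cp x).1 (cp x).2
  have h1 : (Nz x : ℝ) = (((Nz x : ℕ) : ℤ) : ℝ) := by push_cast; rfl
  have h2 : emb8 (x : K8) = (((cp x).1 : ℝ) : ℂ) + (((cp x).2 : ℝ) : ℂ) * tt 0 2 := by
    rw [emb8_cp]
    push_cast
    rfl
  rw [← Complex.normSq_eq_norm_sq, h2, h, h1, Nz_cp]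
  push_cast
  ring

theorem norm_O8 (a : 𝓞 K8) : ((Algebra.norm ℤ a : ℤ) : ℂ) =
    emb8 (a : K8) * (starRingEnd ℂ) (emb8 (a : K8)) := by
  rw [Complex.mul_conj, Complex.normSq_eq_norm_sq, ← Nz_eq, ← Nz_cast]
  push_cast
  rfl

theorem Nz_eq_zero {x : 𝓞 K8} : Nz x = 0 ↔ x = 0 := by
  rw [Nz, Int.natAbs_eq_zero, Algebra.norm_eq_zero_iff]

theorem Nz_zero : Nz 0 = 0 := Nz_eq_zero.2 rfl

theorem Nz_lam : Nz lam = 2 := by
  have h := Nz_cp lam
  rw [cp_lam] at h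
  norm_num at h
  exact_mod_cast h

/-! ### Units -/

theorem cp_unit {x : 𝓞 K8} (h : Nz x = 1) : x = 1 ∨ x = -1 := by
  have h1 := Nz_cp x
  rw [h] at h1
  push_cast at h1
  have h2 : (cp x).2 = 0 := by nlinarith [sq_nonneg (cp x).1, sq_nonneg ((cp x).2)]
  rw [h2] at h1
  have h3 : (cp x).1 = 1 ∨ (cp x).1 = -1 := by
    have h4 : ((cp x).1 - 1) * ((cp x).1 + 1) = 0 := by linear_combination -h1
    rcases mul_eq_zero.1 h4 with h5 | h5
    · left; linarith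
    · right; linarith
  have e := eq_cp x
  rw [h2] at e
  rcases h3 with h3 | h3
  · left
    rw [e, h3]
    push_cast
    ring
  · right
    rw [e, h3]
    push_cast
    ring

theorem isUnit_iff {x : 𝓞 K8} : IsUnit x ↔ x = 1 ∨ x = -1 := by
  constructor
  · intro h
    apply cp_unit
    have h1 := h.map (Algebra.norm ℤ)
    exact Int.isUnit_iff_natAbs_eq.1 h1
  · rintro (rfl | rfl)
    · exact isUnit_one
    · exact isUnit_one.neg

theorem isUnit_iff_Nz {x : 𝓞 K8} : IsUnit x ↔ Nz x = 1 := by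
  constructor
  · intro h
    have h1 := h.map (Algebra.norm ℤ)
    exact Int.isUnit_iff_natAbs_eq.1 h1
  · intro h
    exact isUnit_iff.2 (cp_unit h)

/-! ### The prime `lam` -/

theorem lam_dvd_iff {x : 𝓞 K8} : lam ∣ x ↔ (2 : ℤ) ∣ (cp x).1 := by
  constructor
  · rintro ⟨y, rfl⟩
    rw [cp_mul, cp_lam]
    exact ⟨-(cp y).2, by ring⟩
  · rintro ⟨k, hk⟩
    refine ⟨((cp x).2 : 𝓞 K8) + (-k : ℤ) * lam, ?_⟩
    apply ext_cp
    · rw [cp_mul, cp_lam, cp_coords]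
      linarith
    · rw [cp_mul, cp_lam, cp_coords]
      ring

theorem lam_ne_zero : lam ≠ 0 := by
  intro h
  have := Nz_lam
  rw [h, Nz_zero] at this
  omega

theorem lam_not_unit : ¬ IsUnit lam := by
  intro h
  have := isUnit_iff_Nz.1 h
  rw [Nz_lam] at this
  omega

theorem lam_prime : Prime lam := by
  refine ⟨lam_ne_zero, lam_not_unit, ?_⟩
  intro a b h
  rw [lam_dvd_iff] at h ⊢
  rw [lam_dvd_iff]
  rw [cp_mul] at h
  by_contra hcon
  rw [not_or] at hcon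
  obtain ⟨h1, h2⟩ := hcon
  have e1 : (cp a).1 % 2 = 1 := by omega
  have e2 : (cp b).1 % 2 = 1 := by omega
  have e3 : ((cp a).1 * (cp b).1) % 2 = 1 := by
    rw [Int.mul_emod, e1, e2]
    rfl
  simp only at h
  omega

theorem lam_dvd_two : lam ∣ 2 := ⟨-lam, by rw [two_eq]; ring⟩

/-- Divisibility by `2`. -/
theorem two_dvd_iff {x : 𝓞 K8} : (2 : 𝓞 K8) ∣ x ↔ (2 : ℤ) ∣ (cp x).1 ∧ (2 : ℤ) ∣ (cp x).2 := by
  constructor
  · rintro ⟨y, rfl⟩
    have h2 : (2 : 𝓞 K8) = ((2 : ℤ) : 𝓞 K8) := by norm_num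
    rw [cp_mul, h2, cp_intCast]
    exact ⟨⟨(cp y).1, by ring⟩, ⟨(cp y).2, by ring⟩⟩
  · rintro ⟨⟨a, ha⟩, ⟨b, hb⟩⟩
    refine ⟨(a : 𝓞 K8) + b * lam, ?_⟩
    conv_lhs => rw [eq_cp x, ha, hb]
    push_cast
    ring

/-- Divisibility by an integer. -/
theorem int_dvd_iff {n : ℤ} {x : 𝓞 K8} : (n : 𝓞 K8) ∣ x ↔ n ∣ (cp x).1 ∧ n ∣ (cp x).2 := by
  constructor
  · rintro ⟨y, rfl⟩
    rw [cp_mul, cp_intCast]
    exact ⟨⟨(cp y).1, by ring⟩, ⟨(cp y).2, by ring⟩⟩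
  · rintro ⟨⟨a, ha⟩, ⟨b, hb⟩⟩
    refine ⟨(a : 𝓞 K8) + b * lam, ?_⟩
    conv_lhs => rw [eq_cp x, ha, hb]
    push_cast
    ring

theorem four_dvd_iff {x : 𝓞 K8} : (4 : 𝓞 K8) ∣ x ↔ (4 : ℤ) ∣ (cp x).1 ∧ (4 : ℤ) ∣ (cp x).2 := by
  have h := int_dvd_iff (n := 4) (x := x)
  rwa [Int.cast_ofNat] at h

/-- Divisibility by `lam ^ 5 = 4 lam`. -/
theorem lam5_dvd_iff {x : 𝓞 K8} :
    4 * lam ∣ x ↔ (8 : ℤ) ∣ (cp x).1 ∧ (4 : ℤ) ∣ (cp x).2 := by
  constructor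
  · rintro ⟨y, rfl⟩
    have h2 : (4 * lam : 𝓞 K8) = ((0 : ℤ) : 𝓞 K8) + ((4 : ℤ) : 𝓞 K8) * lam := by
      push_cast
      ring
    rw [cp_mul, h2, cp_coords]
    exact ⟨⟨-(cp y).2, by ring⟩, ⟨(cp y).1, by ring⟩⟩
  · rintro ⟨⟨a, ha⟩, ⟨b, hb⟩⟩
    refine ⟨(b : 𝓞 K8) + ((-a : ℤ) : 𝓞 K8) * lam, ?_⟩
    conv_lhs => rw [eq_cp x, ha, hb]
    push_cast
    linear_combination (4 * (a : 𝓞 K8)) * lam_sq

/-! ### The residues modulo `8` -/

theorem cast8 (n : ℤ) : ((n : ℤ) : ZMod 8) = ((n % 8 : ℤ) : ZMod 8) := by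
  rw [← sub_eq_zero, ← Int.cast_sub, ZMod.intCast_zmod_eq_zero_iff_dvd]
  push_cast
  omega

/-- The coordinates modulo `8`. -/
def cz (x : 𝓞 K8) : ZMod 8 × ZMod 8 := (((cp x).1 : ℤ), ((cp x).2 : ℤ))

theorem cz_mul (x y : 𝓞 K8) : cz (x * y) = ((cz x).1 * (cz y).1 - 2 * ((cz x).2 * (cz y).2),
    (cz x).1 * (cz y).2 + (cz x).2 * (cz y).1) := by
  rw [cz, cp_mul]
  simp only [cz]
  push_cast
  rfl

theorem cz_neg (x : 𝓞 K8) : cz (-x) = -cz x := by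
  rw [cz, cp_neg]
  simp only [cz, Prod.fst_neg, Prod.snd_neg]
  push_cast
  rfl

theorem cz_one : cz (1 : 𝓞 K8) = (1, 0) := by
  rw [cz, cp_one]
  simp

/-- the normalised residues -/
def prz (u v : ZMod 8) : Bool :=
  (u = 1 ∨ u = 3 ∨ u = 5 ∨ u = 7) ∧ ((v = 1 ∨ v = 5) ∨
    ((v = 0 ∨ v = 4) ∧ (u = 1 ∨ u = 5)) ∨ ((v = 2 ∨ v = 6) ∧ (u = 3 ∨ u = 7)))

/-- the bit `a` -/
def az (v : ZMod 8) : ZMod 2 := if v = 1 ∨ v = 3 ∨ v = 5 ∨ v = 7 then 1 else 0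

/-- the bit `l` -/
def lz (u v : ZMod 8) : ZMod 2 :=
  if v = 0 ∨ v = 2 ∨ v = 4 ∨ v = 6 then (if u = 1 ∨ u = 7 then 0 else 1)
  else if v = 1 ∨ v = 5 then (if u = 1 ∨ u = 3 then 1 else 0)
  else (if u = 5 ∨ u = 7 then 1 else 0)

/-- the bit `r` -/
def rz (v : ZMod 8) : ZMod 2 := if v = 2 ∨ v = 6 then 1 else 0

/-- The normalised elements: `1`, `1 + lam`, `-1 + 2 lam`, `-1 + lam` modulo `4`. -/
def Pr (x : 𝓞 K8) : Prop := prz (cz x).1 (cz x).2 = true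

/-- `(-1 / x) = (-1) ^ aa x` -/
def aa (x : 𝓞 K8) : ZMod 2 := az (cz x).2

/-- `(lam / x) = (-1) ^ ll x` -/
def ll (x : 𝓞 K8) : ZMod 2 := lz (cz x).1 (cz x).2

/-- `x = -1 + 2 lam` modulo `4` -/
def rr (x : 𝓞 K8) : ZMod 2 := rz (cz x).2

theorem Pr.one : Pr 1 := by
  rw [Pr, cz_one]
  decide

theorem Pr.mul {x y : 𝓞 K8} (hx : Pr x) (hy : Pr y) : Pr (x * y) := by
  rw [Pr] at hx hy ⊢
  rw [cz_mul]
  revert hx hy
  generalize (cz x).1 = a
  generalize (cz x).2 = b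
  generalize (cz y).1 = c
  generalize (cz y).2 = d
  revert a b c d
  decide +kernel

theorem aa_mul {x y : 𝓞 K8} (hx : Pr x) (hy : Pr y) : aa (x * y) = aa x + aa y := by
  rw [Pr] at hx hy
  rw [aa, aa, aa, cz_mul]
  revert hx hy
  generalize (cz x).1 = a
  generalize (cz x).2 = b
  generalize (cz y).1 = c
  generalize (cz y).2 = d
  revert a b c d
  decide +kernel

theorem ll_mul {x y : 𝓞 K8} (hx : Pr x) (hy : Pr y) : ll (x * y) = ll x + ll y := by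
  rw [Pr] at hx hy
  rw [ll, ll, ll, cz_mul]
  revert hx hy
  generalize (cz x).1 = a
  generalize (cz x).2 = b
  generalize (cz y).1 = c
  generalize (cz y).2 = d
  revert a b c d
  decide +kernel

theorem aa_one : aa 1 = 0 := by
  rw [aa, cz_one]
  decide

theorem ll_one : ll 1 = 0 := by
  rw [ll, cz_one]
  decide

theorem rr_one : rr 1 = 0 := by
  rw [rr, cz_one]
  decide

theorem aa_neg (x : 𝓞 K8) : aa (-x) = aa x := by
  rw [aa, aa, cz_neg]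
  simp only [Prod.snd_neg]
  generalize (cz x).2 = b
  revert b
  decide

theorem ll_neg {x : 𝓞 K8} (hx : ¬ lam ∣ x) : ll (-x) = ll x := by
  have h1 : (cp x).1 % 2 = 1 := by
    rw [lam_dvd_iff] at hx
    omega
  have h2 : (cz x).1 = 1 ∨ (cz x).1 = 3 ∨ (cz x).1 = 5 ∨ (cz x).1 = 7 := by
    have h3 : (cp x).1 % 8 = 1 ∨ (cp x).1 % 8 = 3 ∨ (cp x).1 % 8 = 5 ∨ (cp x).1 % 8 = 7 := by omega
    have h4 : (cz x).1 = (((cp x).1 % 8 : ℤ) : ZMod 8) := by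
      exact cast8 _
    rw [h4]
    rcases h3 with h | h | h | h <;> rw [h] <;> decide
  rw [ll, ll, cz_neg]
  simp only [Prod.fst_neg, Prod.snd_neg]
  revert h2
  generalize (cz x).1 = a
  generalize (cz x).2 = b
  revert a b
  decide +kernel

theorem Pr.prod {ι : Type*} (S : Finset ι) (f : ι → 𝓞 K8) (h : ∀ q ∈ S, Pr (f q)) :
    Pr (∏ q ∈ S, f q) := by
  classical
  induction S using Finset.induction_on with
  | empty => simpa using Pr.one
  | insert a S ha ih =>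
    rw [Finset.prod_insert ha]
    exact (h a (Finset.mem_insert_self _ _)).mul (ih fun q hq => h q (Finset.mem_insert_of_mem hq))

theorem aa_prod {ι : Type*} (S : Finset ι) (f : ι → 𝓞 K8) (h : ∀ q ∈ S, Pr (f q)) :
    aa (∏ q ∈ S, f q) = ∑ q ∈ S, aa (f q) := by
  classical
  induction S using Finset.induction_on with
  | empty => simpa using aa_one
  | insert a S ha ih =>
    have h1 : ∀ q ∈ S, Pr (f q) := fun q hq => h q (Finset.mem_insert_of_mem hq)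
    rw [Finset.prod_insert ha, Finset.sum_insert ha,
      aa_mul (h a (Finset.mem_insert_self _ _)) (Pr.prod S f h1), ih h1]

theorem ll_prod {ι : Type*} (S : Finset ι) (f : ι → 𝓞 K8) (h : ∀ q ∈ S, Pr (f q)) :
    ll (∏ q ∈ S, f q) = ∑ q ∈ S, ll (f q) := by
  classical
  induction S using Finset.induction_on with
  | empty => simpa using ll_one
  | insert a S ha ih =>
    have h1 : ∀ q ∈ S, Pr (f q) := fun q hq => h q (Finset.mem_insert_of_mem hq)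
    rw [Finset.prod_insert ha, Finset.sum_insert ha,
      ll_mul (h a (Finset.mem_insert_self _ _)) (Pr.prod S f h1), ih h1]

/-- The condition on the coordinates. -/
theorem Pr_iff {x : 𝓞 K8} : Pr x ↔ (cp x).1 % 2 = 1 ∧ ((cp x).2 % 4 = 1 ∨
    ((cp x).2 % 2 = 0 ∧ ((cp x).1 + (cp x).2) % 4 = 1)) := by
  have h1 : (cz x).1 = (((cp x).1 % 8 : ℤ) : ZMod 8) := by
    exact cast8 _
  have h2 : (cz x).2 = (((cp x).2 % 8 : ℤ) : ZMod 8) := by
    exact cast8 _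
  rw [Pr, h1, h2]
  have h3 := Int.emod_nonneg (cp x).1 (b := 8) (by norm_num)
  have h4 := Int.emod_lt_of_pos (cp x).1 (b := 8) (by norm_num)
  have h5 := Int.emod_nonneg (cp x).2 (b := 8) (by norm_num)
  have h6 := Int.emod_lt_of_pos (cp x).2 (b := 8) (by norm_num)
  have e1 : (cp x).1 % 2 = ((cp x).1 % 8) % 2 := by omega
  have e2 : (cp x).2 % 4 = ((cp x).2 % 8) % 4 := by omega
  have e3 : (cp x).2 % 2 = ((cp x).2 % 8) % 2 := by omega
  have e4 : ((cp x).1 + (cp x).2) % 4 = ((cp x).1 % 8 + (cp x).2 % 8) % 4 := by omega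
  rw [e1, e2, e3, e4]
  generalize (cp x).1 % 8 = a at *
  generalize (cp x).2 % 8 = b at *
  interval_cases a <;> interval_cases b <;> decide

theorem Pr.odd {x : 𝓞 K8} (hx : Pr x) : ¬ lam ∣ x := by
  rw [lam_dvd_iff]
  have := (Pr_iff.1 hx).1
  omega

/-- Every odd element is normalised up to the sign. -/
theorem Pr_or_neg {x : 𝓞 K8} (hx : ¬ lam ∣ x) : Pr x ∨ Pr (-x) := by
  rw [lam_dvd_iff] at hx
  rw [Pr_iff, Pr_iff, cp_neg]
  simp only [Prod.fst_neg, Prod.snd_neg]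
  omega

theorem not_Pr_neg {x : 𝓞 K8} (hx : Pr x) : ¬ Pr (-x) := by
  rw [Pr_iff, cp_neg]
  rw [Pr_iff] at hx
  simp only [Prod.fst_neg, Prod.snd_neg]
  omega

/-- `Pr` depends on the class modulo `4`. -/
theorem Pr_congr {x y : 𝓞 K8} (h : (4 : 𝓞 K8) ∣ x - y) : Pr x ↔ Pr y := by
  rw [four_dvd_iff, cp_sub] at h
  simp only [Prod.fst_sub, Prod.snd_sub] at h
  rw [Pr_iff, Pr_iff]
  omega

theorem cz_snd_congr {x : 𝓞 K8} : (cz x).2 = (((cp x).2 % 8 : ℤ) : ZMod 8) := by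
  exact cast8 _

theorem cz_fst_congr {x : 𝓞 K8} : (cz x).1 = (((cp x).1 % 8 : ℤ) : ZMod 8) := by
  exact cast8 _

theorem aa_cp (x : 𝓞 K8) : aa x = ((cp x).2 : ZMod 2) := by
  rw [aa, cz_snd_congr]
  have h5 := Int.emod_nonneg (cp x).2 (b := 8) (by norm_num)
  have h6 := Int.emod_lt_of_pos (cp x).2 (b := 8) (by norm_num)
  have e : ((cp x).2 : ZMod 2) = (((cp x).2 % 8 : ℤ) : ZMod 2) := by
    rw [← sub_eq_zero, ← Int.cast_sub, ZMod.intCast_zmod_eq_zero_iff_dvd]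
    push_cast
    omega
  rw [e]
  generalize (cp x).2 % 8 = b at *
  interval_cases b <;> decide

/-- the values of `rr` -/
theorem rr_cp (x : 𝓞 K8) : rr x = if (cp x).2 % 4 = 2 then 1 else 0 := by
  rw [rr, cz_snd_congr]
  have h5 := Int.emod_nonneg (cp x).2 (b := 8) (by norm_num)
  have h6 := Int.emod_lt_of_pos (cp x).2 (b := 8) (by norm_num)
  have e2 : (cp x).2 % 4 = ((cp x).2 % 8) % 4 := by omega
  rw [e2]
  generalize (cp x).2 % 8 = b at *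
  interval_cases b <;> decide

theorem aa_congr {x y : 𝓞 K8} (h : (4 : 𝓞 K8) ∣ x - y) : aa x = aa y := by
  rw [four_dvd_iff, cp_sub] at h
  simp only [Prod.fst_sub, Prod.snd_sub] at h
  rw [aa_cp, aa_cp, ← sub_eq_zero, ← Int.cast_sub, ZMod.intCast_zmod_eq_zero_iff_dvd]
  push_cast
  omega

/-- `ll` depends on the class modulo `lam ^ 5`. -/
theorem ll_congr {x y : 𝓞 K8} (h : 4 * lam ∣ x - y) : ll x = ll y := by
  rw [lam5_dvd_iff, cp_sub] at h
  simp only [Prod.fst_sub, Prod.snd_sub] at h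
  have e1 : (cp x).1 % 8 = (cp y).1 % 8 := by omega
  have e2 : (cp x).2 % 8 = (cp y).2 % 8 ∨ (cp x).2 % 8 = ((cp y).2 % 8 + 4) % 8 := by omega
  rw [ll, ll, cz_fst_congr, cz_snd_congr, cz_fst_congr, cz_snd_congr, e1]
  have h3 := Int.emod_nonneg (cp y).1 (b := 8) (by norm_num)
  have h4 := Int.emod_lt_of_pos (cp y).1 (b := 8) (by norm_num)
  have h5 := Int.emod_nonneg (cp y).2 (b := 8) (by norm_num)
  have h6 := Int.emod_lt_of_pos (cp y).2 (b := 8) (by norm_num)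
  rcases e2 with e2 | e2
  · rw [e2]
  · rw [e2]
    generalize (cp y).1 % 8 = a at *
    generalize (cp y).2 % 8 = b at *
    interval_cases a <;> interval_cases b <;> decide

end

end Pool.Agent.Lib.MP_1a91b9_ntW
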