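import Pool.Agent.Lib.MP_1a91b9_ntW.R.Den8
import Pool.Agent.Lib.MP_1a91b9_ntR.ClsB

/-!
# Phase 7, `ℚ(√-2)`: the classes of the primes outside a finite set `B`

`C8B n B`: the classes modulo `2 ^ (n + 3)` and the symbols modulo the primes of `B`, for the data
`D8.off B`.
-/

set_option autoImplicit false

namespace Pool.Agent.Lib.MP_1a91b9_ntW

open NumberField Finset
open Pool.Agent.Lib.MP_1a91b9_ntH (PS pr mem_pr sg nm Sx mem_Sx)
open Pool.Agent.Lib.MP_1a91b9_ntQ (Dat2 Cl2 Off up sum_Sx_off)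
open Pool.Agent.Lib.MP_1a91b9_ntR (nG Qi Pri sys GR cq GRB cqB c2)

noncomputable section

/-- The class of a prime: modulo `2 ^ (n + 3)` and the symbols modulo the primes of `B`. -/
def cB8 (n : ℕ) (B : Finset Pg) (q : Pg) : GRB (mod8 n) B := cqB (mod8 n) B q

theorem dR_D8 : Pool.Agent.Lib.MP_1a91b9_ntR.dR (R := 𝓞 K8) cl8 = D8 := by
  unfold Pool.Agent.Lib.MP_1a91b9_ntR.dR D8
  congr 1
  funext q p
  exact (sy_eq q p).symm

/-- The class system of the data `D8.off B`. -/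
def C8B (n : ℕ) (B : Finset Pg) : Cl2 (D8.off B) (GRB (mod8 n) B) where
  cl q := cB8 n B q.1
  A := (Pool.Agent.Lib.MP_1a91b9_ntR.dRB (R := 𝓞 K8) (mod8 n) (cls8 n) rcp8 B).A
  ha q j := by
    have h := (Pool.Agent.Lib.MP_1a91b9_ntR.dRB (R := 𝓞 K8) (mod8 n) (cls8 n) rcp8 B).ha q j
    have h1 : (D8.off B).a q j =
        ((Pool.Agent.Lib.MP_1a91b9_ntR.dR (R := 𝓞 K8) cl8).off B).a q j := by
      rw [dR_D8]
      rfl
    rw [h1]
    exact h

/-- **Every nontrivial character of the classes has mean value zero.** -/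
theorem h3_8B (n : ℕ) (B : Finset Pg) : (C8B n B).H3 := by
  intro ψ hψ ε hε
  obtain ⟨q, hq⟩ := hψ
  have h := Pool.Agent.Lib.MP_1a91b9_ntR.h3B' (mod8 n) (two_pow_ne n) B ψ ⟨q.1, hq⟩ ε hε
  rw [ps_eq] at h
  exact h

end

end Pool.Agent.Lib.MP_1a91b9_ntW
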