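import Pool.Agent.Lib.MP_1a91b9_ntW.R.Inst
import Pool.Agent.Lib.MP_1a91b9_ntR.Qch
import Pool.Agent.Lib.MP_1a91b9_ntV.D.Defs

/-!
# Phase 6, `ℚ(√-2)`: the bit `a` takes the value `0` often enough

`cbn8`: the sums `∑ - (-1) ^ a_q N q ^ (-σ)` are bounded above (`L(1, χ) > 0` for the character
`χ = χ₋₄ ∘ N`, whose L-series is `L(s, χ₋₄) L(s, χ₈)`).
-/

set_option autoImplicit false

namespace Pool.Agent.Lib.MP_1a91b9_ntW

open NumberField Finset
open Pool.Agent.Lib.MP_1a91b9_ntH (PS pr mem_pr sg)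
open Pool.Agent.Lib.MP_1a91b9_ntR (nG negsum)
open Pool.Agent.Lib.MP_1a91b9_ntV (SumB)

noncomputable section

theorem prime_of_Nz {x : 𝓞 K8} {p : ℕ} (hp : p.Prime) (h : Nz x = p) : Prime x := by
  apply Irreducible.prime
  constructor
  · intro h1
    rw [isUnit_iff_Nz.1 h1] at h
    exact hp.one_lt.ne h
  · intro a b hab
    rw [hab, Nz_mul] at h
    have h1 : Nz a ∣ p := ⟨Nz b, h.symm⟩
    rcases (Nat.dvd_prime hp).1 h1 with h2 | h2
    · exact Or.inl (isUnit_iff_Nz.2 h2)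
    · right
      rw [isUnit_iff_Nz]
      rw [h2] at h
      exact Nat.eq_of_mul_eq_mul_left hp.pos (by rw [mul_one]; exact h)

theorem Nz_neg (x : 𝓞 K8) : Nz (-x) = Nz x := by
  have h : (Nz (-x) : ℤ) = Nz x := by
    rw [Nz_cp, Nz_cp, cp_neg]
    simp only [Prod.fst_neg, Prod.snd_neg]
    ring
  exact_mod_cast h

theorem Nz_odd8 (q : Pg) : Nz q.1 % 8 = 1 ∨ Nz q.1 % 8 = 3 := by
  have h1 := Nz_cp q.1
  have h2 := (Pr_iff.1 q.2.2).1
  obtain ⟨k, hk⟩ : ∃ k, (cp q.1).1 = 2 * k + 1 := ⟨(cp q.1).1 / 2, by omega⟩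
  have hkk : k * (k + 1) % 2 = 0 := Int.even_iff.1 (Int.even_mul_succ_self k)
  rcases Int.emod_two_eq_zero_or_one (cp q.1).2 with h3 | h3
  · obtain ⟨e, he⟩ : ∃ e, (cp q.1).2 = 2 * e := ⟨(cp q.1).2 / 2, by omega⟩
    have h4 : (Nz q.1 : ℤ) = 4 * (k * (k + 1)) + 8 * e ^ 2 + 1 := by
      rw [h1, hk, he]
      ring
    left
    omega
  · obtain ⟨e, he⟩ : ∃ e, (cp q.1).2 = 2 * e + 1 := ⟨(cp q.1).2 / 2, by omega⟩
    have h4 : (Nz q.1 : ℤ) = 4 * (k * (k + 1)) + 8 * (e * (e + 1)) + 3 := by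
      rw [h1, hk, he]
      ring
    right
    omega

theorem aa_Nz (q : Pg) : aa q.1 = if Nz q.1 % 8 = 3 then 1 else 0 := by
  have h := Pool.Agent.Lib.MP_1a91b9_ntR.c2_neg_one (R := 𝓞 K8) q
  rw [← cc_neg_one]
  have h1 := Nz_odd8 q
  change cc q (-1) = _ at h
  rw [h, nG_eq_Nz]
  by_cases h2 : Nz q.1 % 8 = 3
  · rw [if_pos h2, if_pos (by omega)]
  · rw [if_neg h2, if_neg (by omega)]

/-- The prime norms which are `1` modulo `8` are norms. -/
theorem exists_norm {p : ℕ} (hp : p.Prime) (h8 : p % 8 = 1) : ∃ x : 𝓞 K8, Nz x = p := by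
  have : Fact p.Prime := ⟨hp⟩
  have hp2 : p ≠ 2 := by omega
  obtain ⟨y, hy⟩ := (ZMod.exists_sq_eq_neg_two_iff hp2).2 (Or.inl h8)
  obtain ⟨Y, rfl⟩ := ZMod.intCast_surjective y
  have h1 : (p : ℤ) ∣ Y ^ 2 + 2 := by
    rw [← ZMod.intCast_zmod_eq_zero_iff_dvd]
    push_cast
    linear_combination -hy
  have h2 : ((p : ℤ) : 𝓞 K8) ∣ ((Y : 𝓞 K8) + ((1 : ℤ) : 𝓞 K8) * lam) *
      ((Y : 𝓞 K8) + ((-1 : ℤ) : 𝓞 K8) * lam) := by
    obtain ⟨k, hk⟩ := h1
    refine ⟨(k : 𝓞 K8), ?_⟩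
    have hk' := congrArg (fun z : ℤ => (z : 𝓞 K8)) hk
    push_cast at hk' ⊢
    linear_combination hk' - lam_sq
  have hNp : Nz ((p : ℤ) : 𝓞 K8) = p ^ 2 := by
    have h3 := Nz_cp ((p : ℤ) : 𝓞 K8)
    rw [cp_intCast] at h3
    have h4 : (Nz ((p : ℤ) : 𝓞 K8) : ℤ) = ((p ^ 2 : ℕ) : ℤ) := by
      rw [h3]
      push_cast
      ring
    exact_mod_cast h4
  have h3 : ¬ Prime ((p : ℤ) : 𝓞 K8) := by
    intro h4
    have hno : ∀ e : ℤ, (e = 1 ∨ e = -1) → ¬ ((p : ℤ) : 𝓞 K8) ∣ (Y : 𝓞 K8) + (e : 𝓞 K8) * lam := by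
      intro e he h5
      rw [int_dvd_iff, cp_coords] at h5
      have h6 : (p : ℤ) ∣ 1 := by
        rcases he with rfl | rfl
        · exact h5.2
        · exact (Int.dvd_neg).1 h5.2
      have h7 := Int.le_of_dvd one_pos h6
      have := hp.one_lt
      omega
    rcases h4.dvd_or_dvd h2 with h5 | h5
    · exact hno 1 (Or.inl rfl) h5
    · exact hno (-1) (Or.inr rfl) h5
  have h0 : ((p : ℤ) : 𝓞 K8) ≠ 0 := by
    intro h4
    rw [h4, Nz_zero] at hNp
    have := pow_pos hp.pos 2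
    omega
  have hu : ¬ IsUnit ((p : ℤ) : 𝓞 K8) := by
    intro h4
    rw [isUnit_iff_Nz, hNp] at h4
    have := hp.one_lt
    nlinarith
  obtain ⟨π, hπ, t, ht⟩ := WfDvdMonoid.exists_irreducible_factor hu h0
  have h5 : Nz π * Nz t = p ^ 2 := by rw [← Nz_mul, ← ht, hNp]
  have h6 : Nz π ∣ p ^ 2 := ⟨Nz t, h5.symm⟩
  obtain ⟨i, hi, hπi⟩ := (Nat.dvd_prime_pow hp).1 h6
  interval_cases i
  · exact absurd (isUnit_iff_Nz.2 (by rw [hπi]; rfl)) hπ.not_isUnit
  · exact ⟨π, by rw [hπi, pow_one]⟩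
  · exfalso
    apply h3
    rw [hπi] at h5
    have h7 : Nz t = 1 := by
      have := pow_pos hp.pos 2
      exact Nat.eq_of_mul_eq_mul_left this (by rw [mul_one]; exact h5)
    have h8 := isUnit_iff_Nz.2 h7
    have h9 : Associated π ((p : ℤ) : 𝓞 K8) := by
      rw [ht]
      exact associated_mul_unit_right π t h8
    exact h9.prime hπ.prime

/-- There are two primes of norm `p` if `p = 1` modulo `8`. -/
theorem two_primes {p : ℕ} (hp : p.Prime) (h8 : p % 8 = 1) :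
    ∃ q r : Pg, q ≠ r ∧ Nz q.1 = p ∧ Nz r.1 = p := by
  obtain ⟨x, hx⟩ := exists_norm hp h8
  have hN := Nz_cp x
  rw [hx] at hN
  obtain ⟨y, hy⟩ : ∃ y : 𝓞 K8, y = ((cp x).1 : 𝓞 K8) + ((-(cp x).2 : ℤ) : 𝓞 K8) * lam := ⟨_, rfl⟩
  have hcy : cp y = ((cp x).1, -(cp x).2) := by rw [hy, cp_coords]
  have hNy : Nz y = p := by
    have h1 : (Nz y : ℤ) = p := by
      rw [Nz_cp, hcy, hN]
      ring
    exact_mod_cast h1
  have hodd : ∀ z : 𝓞 K8, Nz z = p → ¬ lam ∣ z := by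
    intro z hz h
    rw [lam_dvd_iff] at h
    have h1 := Nz_cp z
    obtain ⟨k, hk⟩ := h
    rw [hz, hk] at h1
    have h2 : (p : ℤ) = 2 * (2 * k ^ 2 + (cp z).2 ^ 2) := by rw [h1]; ring
    omega
  obtain ⟨q, hq⟩ := exists_Pg (prime_of_Nz hp hx) (hodd x hx)
  obtain ⟨r, hr⟩ := exists_Pg (prime_of_Nz hp hNy) (hodd y hNy)
  have hc : (cp x).1 ≠ 0 := by
    intro h
    rw [h] at hN
    have h2 : (p : ℤ) = 2 * (cp x).2 ^ 2 := by rw [hN]; ring
    omega
  have hd : (cp x).2 ≠ 0 := by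
    intro h
    rw [h] at hN
    have h2 : (cp x).1.natAbs * (cp x).1.natAbs = p := by
      have h3 : (((cp x).1.natAbs * (cp x).1.natAbs : ℕ) : ℤ) = (p : ℤ) := by
        rw [Int.natAbs_mul_self, hN]
        ring
      exact_mod_cast h3
    have h4 : (cp x).1.natAbs ≠ 1 := by
      intro h5
      rw [h5] at h2
      exact hp.one_lt.ne h2
    rw [← h2] at hp
    exact Nat.not_prime_mul h4 h4 hp
  refine ⟨q, r, ?_, ?_, ?_⟩
  · intro h
    have h1 : cp q.1 = cp r.1 := by rw [h]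
    rcases hq with hq | hq <;> rcases hr with hr | hr <;> rw [hq, hr] at h1
    · rw [hcy] at h1
      have := congrArg Prod.snd h1
      simp only at this
      omega
    · rw [cp_neg, hcy] at h1
      have := congrArg Prod.fst h1
      simp only [Prod.fst_neg] at this
      omega
    · rw [cp_neg, hcy] at h1
      have := congrArg Prod.fst h1
      simp only [Prod.fst_neg] at this
      omega
    · rw [cp_neg, cp_neg, hcy] at h1
      have := congrArg Prod.snd h1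
      simp only [Prod.snd_neg] at this
      omega
  · rcases hq with hq | hq
    · rw [hq, hx]
    · rw [hq, Nz_neg, hx]
  · rcases hr with hr | hr
    · rw [hr, hNy]
    · rw [hr, Nz_neg, hNy]

/-- the comparison function -/
def hn (σ : ℝ) (n : ℕ) : ℝ :=
  -((ZMod.χ₄ (n : ZMod 4) : ℤ) : ℝ) * (n : ℝ) ^ (-σ) +
    -((ZMod.χ₈ (n : ZMod 8) : ℤ) : ℝ) * (n : ℝ) ^ (-σ)

theorem fib_le (σ : ℝ) (x n : ℕ) (hn0 : n ∈ range (x + 1)) :
    ∑ q ∈ (pr Pg x).filter (fun q => Nz q.1 = n), -sg (aa q.1) * (Nz q.1 : ℝ) ^ (-σ) ≤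
      if n.Prime then hn σ n else 0 := by
  have hpos : (0 : ℝ) ≤ (n : ℝ) ^ (-σ) := Real.rpow_nonneg (Nat.cast_nonneg _) _
  obtain ⟨A, hA⟩ : ∃ A, A = (pr Pg x).filter (fun q => Nz q.1 = n) := ⟨_, rfl⟩
  rw [← hA]
  have hmem : ∀ q : Pg, q ∈ A ↔ Nz q.1 = n := by
    intro q
    rw [hA, mem_filter, mem_pr, PN_eq]
    constructor
    · exact fun h => h.2
    · intro h
      exact ⟨by rw [h]; rw [mem_range] at hn0; omega, h⟩
  have hs1 : n % 8 = 1 → ∑ q ∈ A, -sg (aa q.1) * (Nz q.1 : ℝ) ^ (-σ) =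
      -(A.card * (n : ℝ) ^ (-σ)) := by
    intro h8
    rw [← nsmul_eq_mul, ← sum_const, ← sum_neg_distrib]
    refine sum_congr rfl fun q hq => ?_
    rw [(hmem q).1 hq, aa_Nz, (hmem q).1 hq, if_neg (by omega)]
    have h1 : sg 0 = 1 := if_pos rfl
    rw [h1]
    ring
  have hs3 : n % 8 = 3 → ∑ q ∈ A, -sg (aa q.1) * (Nz q.1 : ℝ) ^ (-σ) =
      A.card * (n : ℝ) ^ (-σ) := by
    intro h8
    rw [← nsmul_eq_mul, ← sum_const]
    refine sum_congr rfl fun q hq => ?_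
    rw [(hmem q).1 hq, aa_Nz, (hmem q).1 hq, if_pos (by omega)]
    have h1 : sg 1 = -1 := if_neg one_ne_zero
    rw [h1]
    ring
  have he : ¬ (n % 8 = 1 ∨ n % 8 = 3) → A = ∅ := by
    intro h
    rw [eq_empty_iff_forall_notMem]
    intro q hq
    have h1 := Nz_odd8 q
    rw [(hmem q).1 hq] at h1
    exact h h1
  by_cases hp : n.Prime
  · rw [if_pos hp, hn, ZMod.χ₄_nat_eq_if_mod_four, ZMod.χ₈_nat_eq_if_mod_eight]
    by_cases h1 : n % 8 = 1
    · rw [hs1 h1, if_neg (by omega), if_pos (by omega), if_neg (by omega), if_pos (by omega)]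
      obtain ⟨q, r, hqr, hq, hr⟩ := two_primes hp h1
      have h2 : 2 ≤ A.card := by
        have h3 : ({q, r} : Finset Pg) ⊆ A := by
          intro t ht
          rw [mem_insert, mem_singleton] at ht
          rcases ht with rfl | rfl
          · exact (hmem _).2 hq
          · exact (hmem _).2 hr
        have h4 := card_le_card h3
        rwa [card_pair hqr] at h4
      have h3 : (2 : ℝ) ≤ A.card := by exact_mod_cast h2
      push_cast
      nlinarith
    · by_cases h3 : n % 8 = 3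
      · rw [hs3 h3, if_neg (by omega), if_neg (by omega), if_neg (by omega), if_neg (by omega)]
        have h2 : A.card ≤ 2 := Pool.Agent.Lib.MP_1a91b9_ntR.card_nG_eq (R := 𝓞 K8) n A
          fun q hq => by rw [nG_eq_Nz]; exact (hmem q).1 hq
        have h4 : (A.card : ℝ) ≤ 2 := by exact_mod_cast h2
        push_cast
        nlinarith
      · rw [he (by omega), sum_empty]
        by_cases h2 : n % 2 = 0
        · rw [if_pos h2, if_pos h2]
          simp
        · by_cases h5 : n % 8 = 5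
          · rw [if_neg h2, if_pos (by omega), if_neg h2, if_neg (by omega)]
            push_cast
            linarith
          · rw [if_neg h2, if_neg (by omega), if_neg h2, if_pos (by omega)]
            push_cast
            linarith
  · rw [if_neg hp]
    rcases A.eq_empty_or_nonempty with h | ⟨q, hq⟩
    · rw [h, sum_empty]
    · have h1 := (hmem q).1 hq
      obtain ⟨p, hp', h2 | h2⟩ := Pool.Agent.Lib.MP_1a91b9_ntR.nG_prime_cases (R := 𝓞 K8) q
      · exfalso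
        rw [nG_eq_Nz] at h2
        apply hp
        rw [← h1]
        change (Nz q.1).Prime
        rw [h2]
        exact hp'
      · rw [nG_eq_Nz] at h2
        have h3 : n = p ^ 2 := by rw [← h1]; exact h2
        have h4 := Nz_odd8 q
        rw [h1, h3] at h4
        have h5 : p % 2 = 1 := by
          rcases Nat.mod_two_eq_zero_or_one p with h6 | h6
          · exfalso
            obtain ⟨k, rfl⟩ : ∃ k, p = 2 * k := ⟨p / 2, by omega⟩
            have h7 : (2 * k) ^ 2 = 4 * k ^ 2 := by ring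
            omega
          · exact h6
        have h6 : n % 8 = 1 := by
          rw [h3]
          obtain ⟨k, rfl⟩ : ∃ k, p = 2 * k + 1 := ⟨p / 2, by omega⟩
          have h7 : (2 * k + 1) ^ 2 = 4 * (k * (k + 1)) + 1 := by ring
          have h8 : k * (k + 1) % 2 = 0 := Nat.even_iff.1 (Nat.even_mul_succ_self k)
          omega
        rw [hs1 h6, neg_nonpos]
        positivity

theorem sum_le8 (σ : ℝ) (x : ℕ) :
    ∑ q ∈ pr Pg x, -sg (aa q.1) * (Nz q.1 : ℝ) ^ (-σ) ≤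
      ∑ p ∈ Nat.primesBelow (x + 1), -((ZMod.χ₄ (p : ZMod 4) : ℤ) : ℝ) * (p : ℝ) ^ (-σ) +
      ∑ p ∈ Nat.primesBelow (x + 1), -((ZMod.χ₈ (p : ZMod 8) : ℤ) : ℝ) * (p : ℝ) ^ (-σ) := by
  have hmaps : ∀ q ∈ pr Pg x, Nz q.1 ∈ range (x + 1) := by
    intro q hq
    rw [mem_pr, PN_eq] at hq
    rw [mem_range]
    omega
  rw [← sum_fiberwise_of_maps_to hmaps, ← sum_add_distrib, Nat.primesBelow, sum_filter]
  exact sum_le_sum fun n hn => fib_le σ x n hn

theorem chi4_ne : (ZMod.χ₄ : MulChar (ZMod 4) ℤ) ≠ 1 := by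
  intro h
  have h1 := congrArg (fun g : MulChar (ZMod 4) ℤ => g 3) h
  have h2 : IsUnit (3 : ZMod 4) := ⟨⟨3, 3, rfl, rfl⟩, rfl⟩
  simp only [MulChar.one_apply h2] at h1
  revert h1
  decide

theorem chi8_ne : (ZMod.χ₈ : MulChar (ZMod 8) ℤ) ≠ 1 := by
  intro h
  have h1 := congrArg (fun g : MulChar (ZMod 8) ℤ => g 3) h
  have h2 : IsUnit (3 : ZMod 8) := ⟨⟨3, 3, rfl, rfl⟩, rfl⟩
  simp only [MulChar.one_apply h2] at h1
  revert h1
  decide

/-- **The bit `a` takes the value `0` often enough.** -/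
theorem cbn8' : ∃ C, SumB (fun q : Pg => -sg (aa q.1)) C := by
  obtain ⟨C₁, h₁⟩ := negsum ZMod.χ₄ chi4_ne (by decide)
  obtain ⟨C₂, h₂⟩ := negsum ZMod.χ₈ chi8_ne (by decide)
  refine ⟨Real.exp (max (C₁ + C₂) 0), Real.one_le_exp (le_max_right _ _), fun σ h1 h3 => ?_⟩
  have e1 := (Filter.tendsto_add_atTop_nat 1).eventually (h₁ σ h1 h3)
  have e2 := (Filter.tendsto_add_atTop_nat 1).eventually (h₂ σ h1 h3)
  filter_upwards [e1, e2] with x hx1 hx2
  rw [Real.log_exp]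
  refine le_trans ?_ (le_max_left _ _)
  exact (sum_le8 σ x).trans (add_le_add hx1 hx2)

end

end Pool.Agent.Lib.MP_1a91b9_ntW
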