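import Pool.Agent.Lib.MP_1a91b9_ntW.R.Eng8
import Pool.Agent.Lib.MP_1a91b9_ntW.D.Glue8
import Pool.Agent.Lib.MP_1a91b9_ntR.Den

/-!
# Phase 6, `ℚ(√-2)`: the density of the good squarefree elements

`Gd8 x`: `x = dW k j S` with `GW k j S ≠ 0`. In every class modulo a power of `2` which contains
squarefree elements the density of `Gd8` is `cinf2`.
-/

set_option autoImplicit false

namespace Pool.Agent.Lib.MP_1a91b9_ntW

open NumberField Finset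
open Pool.Agent.Lib.MP_1a91b9_ntH (PS pr mem_pr sg nm Sx mem_Sx)
open Pool.Agent.Lib.MP_1a91b9_ntQ (Dat2 Cl2)
open Pool.Agent.Lib.MP_1a91b9_ntQ.Da (SG mem_SG cinf2)
open Pool.Agent.Lib.MP_1a91b9_ntR (nG Qi Pri sys Rcp Bad mu pb GR cq SR gc SP mem_SP LowF UppF Cnd
  cnd_cls tendsto_of)

noncomputable section

/-- The bad prime. -/
def pi8 : Unit → 𝓞 K8 := fun _ => lam

theorem bad8 : Bad (R := 𝓞 K8) pi8 where
  prime _ := lam_prime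
  ne a b hab := absurd (Subsingleton.elim a b) hab
  odd _ _ hx := Pr.odd hx
  cop _ hx := coprime_four (hx ())
  unit _ hu := isUnit_iff.1 hu

/-- The multipliers. -/
theorem mu8 (k j : ZMod 2) (S : Finset Pg) :
    mu pi8 (k, fun _ => j + 1) * DD S = dW k j S := by
  unfold mu pb dW
  rw [Fintype.prod_unique]
  have e : (j + 1).val = 1 - j.val := by
    revert j
    decide
  change (-1) ^ k.val * lam ^ (j + 1).val * DD S = _
  rw [e]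

/-- The class group modulo `2 ^ (n + 3)` of the data `D8`. -/
def C8 (n : ℕ) : Cl2 D8 (GR (mod8 n)) where
  cl q := cq (mod8 n) q
  A := Pool.Agent.Lib.MP_1a91b9_ntR.QSys.AQ (mod8 n) (cls8 n).mul (cls8 n).per
  ha q j := (Pool.Agent.Lib.MP_1a91b9_ntR.QSys.AQ_clp (mod8 n) (cls8 n).mul (cls8 n).per j q).symm

theorem nm_eq (S : Finset Pg) :
    @nm (Pool.Agent.Lib.MP_1a91b9_ntR.Pg (𝓞 K8)) Pool.Agent.Lib.MP_1a91b9_ntR.psPg S = nm S := by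
  rw [ps_eq]
  rfl

theorem h3_8 (n : ℕ) : (C8 n).H3 := by
  have := Pool.Agent.Lib.MP_1a91b9_ntR.finite_quot (two_pow_ne n)
  intro ψ hψ ε hε
  have h := Pool.Agent.Lib.MP_1a91b9_ntR.QSys.h3G Pool.Agent.Lib.MP_1a91b9_ntR.sys_com (mod8 n)
    (two_pow_ne n) ψ hψ ε hε
  rw [ps_eq] at h
  exact h

instance finGR8 (n : ℕ) : Fintype (GR (mod8 n)) := by
  have := Pool.Agent.Lib.MP_1a91b9_ntR.finite_GR (mod8 n) (two_pow_ne n)
  exact Fintype.ofFinite _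

theorem SG8_eq (n : ℕ) (g : GR (mod8 n)) (X : ℕ) : SG (C8 n) g X = SR (mod8 n) g X := by
  ext S
  have h1 := mem_SG (C := C8 n) (g := g) (X := X) (S := S)
  rw [h1, mem_Sx]
  have h2 := Pool.Agent.Lib.MP_1a91b9_ntR.mem_SR (hQ := mod8 n) (g := g) (X := X) (S := S)
  rw [nm_eq] at h2
  exact h2.symm

theorem id8 : Id8 D8 w8 ![0, 1] where
  es _ _ := rfl
  ew := dg_w8
  el q := by
    change ∑ j, (![0, 1] : Fin 2 → ZMod 2) j * cl8 j q.1 = ll q.1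
    rw [Fin.sum_univ_two]
    simp [cl8]
  l0 h := one_ne_zero (congrFun h 1)
  lw h := zero_ne_one (congrFun h 0)

/-- The good sets. -/
def Go8 (i : ZMod 2 × (Unit → ZMod 2)) (S : Finset Pg) : Prop := GW i.1 (i.2 () + 1) S ≠ 0

/-- The good squarefree elements. -/
def Gd8 (x : 𝓞 K8) : Prop := ∃ (k j : ZMod 2) (S : Finset Pg), x = dW k j S ∧ GW k j S ≠ 0

theorem two_add (a : ZMod 2) : a + 1 + 1 = a := by
  revert a
  decide

theorem ix8 (i : ZMod 2 × (Unit → ZMod 2)) : i = (i.1, fun _ => (i.2 () + 1) + 1) := by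
  refine Prod.ext rfl ?_
  funext a
  rw [two_add]

theorem Gd8_iff (i : ZMod 2 × (Unit → ZMod 2)) (S : Finset Pg) :
    Gd8 (mu pi8 i * DD S) ↔ Go8 i S := by
  constructor
  · rintro ⟨k, j, T, h1, h2⟩
    rw [← mu8] at h1
    obtain ⟨h3, h4⟩ := bad8.mul_inj (S := S) (T := T) h1
    subst h4
    unfold Go8
    rw [h3]
    change GW k (j + 1 + 1) S ≠ 0
    rw [two_add]
    exact h2
  · intro h
    refine ⟨i.1, i.2 () + 1, S, ?_, h⟩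
    rw [← mu8, ← ix8]

theorem low8 (n : ℕ) (Rc : 𝓞 K8 → Prop) {κ : ℝ}
    (hκ : κ < cinf2) : LowF (mod8 n) pi8 Rc κ Go8 := by
  classical
  intro i g _ ε hε
  obtain ⟨X₀, hX₀⟩ := GW_lower id8 okw8 (C8 n) (h3_8 n) i.1 (i.2 () + 1) g hκ ε hε
  refine ⟨X₀, fun X hX => ?_⟩
  have h := hX₀ X hX
  rw [SG8_eq] at h
  refine h.trans (le_of_eq ?_)
  congr 2
  ext S
  rw [mem_filter]
  exact (mem_SP (hQ := mod8 n) (g := g) (X := X) (P := Go8 i) (S := S)).symm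

theorem upp8 (n : ℕ) (Rc : 𝓞 K8 → Prop) {κ : ℝ}
    (hκ : cinf2 < κ) : UppF (mod8 n) pi8 Rc κ Go8 := by
  classical
  intro i g _ ε hε
  obtain ⟨X₀, hX₀⟩ := GW_upper id8 okw8 (C8 n) (h3_8 n) i.1 (i.2 () + 1) g hκ ε hε
  refine ⟨X₀, fun X hX => ?_⟩
  have h := hX₀ X hX
  rw [SG8_eq] at h
  refine (le_of_eq ?_).trans h
  symm
  congr 2
  ext S
  rw [mem_filter]
  exact (mem_SP (hQ := mod8 n) (g := g) (X := X) (P := Go8 i) (S := S)).symm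

theorem hne8 {m u : 𝓞 K8} (hu : ∀ p : 𝓞 K8, Prime p → ¬ (p ^ 2 ∣ m ∧ p ^ 2 ∣ u)) :
    ∃ (i : ZMod 2 × (Unit → ZMod 2)) (y : 𝓞 K8), Pri.In y ∧ m ∣ mu pi8 i * y - u :=
  bad8.exists_cls fun a => hu _ (bad8.prime a)

/-- **The density of the good elements in a class modulo a power of `2`.** -/
theorem den8 {m u : 𝓞 K8} {n : ℕ} (hm : m ∣ 2 ^ n)
    (hu : ∀ p : 𝓞 K8, Prime p → ¬ (p ^ 2 ∣ m ∧ p ^ 2 ∣ u)) (P : 𝓞 K8 → Prop)
    (hP : ∀ x, Squarefree x → (P x ↔ Gd8 x)) :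
    Filter.Tendsto (fun X : ℝ =>
      (Nat.card {x : 𝓞 K8 // Squarefree x ∧ m ∣ x - u ∧ |Algebra.norm ℤ x| ≤ X ∧ P x} : ℝ) /
        (Nat.card {x : 𝓞 K8 // Squarefree x ∧ m ∣ x - u ∧ |Algebra.norm ℤ x| ≤ X} : ℝ))
      Filter.atTop (nhds cinf2) := by
  have hm' : m ∣ (2 : 𝓞 K8) ^ (n + 3) := hm.trans (pow_dvd_pow _ (by omega))
  apply tendsto_of
  · intro κ' hκ'
    obtain ⟨κ, h1, h2⟩ := exists_between hκ'
    refine bad8.low (mod8 n) (two_pow_ne n) (cnd_cls hm') (hne8 hu) h1 (low8 n _ h2) P ?_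
    intro i S _ hg
    exact (hP _ (bad8.sqf i S)).2 ((Gd8_iff i S).2 hg)
  · intro κ' hκ'
    obtain ⟨κ, h1, h2⟩ := exists_between hκ'
    refine bad8.upp (mod8 n) (two_pow_ne n) (cnd_cls hm') (hne8 hu) h2 (upp8 n _ h1) P ?_
    intro i S _ hp
    exact (Gd8_iff i S).1 ((hP _ (bad8.sqf i S)).1 hp)

/-- The lower bound, for a property which follows from `Gd8`. -/
theorem den8_low {m u : 𝓞 K8} {n : ℕ} (hm : m ∣ 2 ^ n)
    (hu : ∀ p : 𝓞 K8, Prime p → ¬ (p ^ 2 ∣ m ∧ p ^ 2 ∣ u)) (P : 𝓞 K8 → Prop)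
    (hP : ∀ x, Squarefree x → Gd8 x → P x) (ε : ℝ) (hε : 0 < ε) :
    ∀ᶠ X : ℝ in Filter.atTop, cinf2 - ε ≤
      (Nat.card {x : 𝓞 K8 // Squarefree x ∧ m ∣ x - u ∧ |Algebra.norm ℤ x| ≤ X ∧ P x} : ℝ) /
        (Nat.card {x : 𝓞 K8 // Squarefree x ∧ m ∣ x - u ∧ |Algebra.norm ℤ x| ≤ X} : ℝ) := by
  have hm' : m ∣ (2 : 𝓞 K8) ^ (n + 3) := hm.trans (pow_dvd_pow _ (by omega))
  obtain ⟨κ, h1, h2⟩ := exists_between (show cinf2 - ε < cinf2 by linarith)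
  refine bad8.low (mod8 n) (two_pow_ne n) (cnd_cls hm') (hne8 hu) h1 (low8 n _ h2) P ?_
  intro i S _ hg
  exact hP _ (bad8.sqf i S) ((Gd8_iff i S).2 hg)

/-- Every squarefree element is a `dW k j S`. -/
theorem exists_dW {x : 𝓞 K8} (hx : Squarefree x) :
    ∃ (k j : ZMod 2) (S : Finset Pg), x = dW k j S := by
  obtain ⟨i, S, hS⟩ := bad8.surj hx
  refine ⟨i.1, i.2 () + 1, S, ?_⟩
  rw [← mu8, ← ix8]
  exact hS

theorem dW_squarefree (k j : ZMod 2) (S : Finset Pg) : Squarefree (dW k j S) := by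
  rw [← mu8]
  exact bad8.sqf _ S

theorem dW_inj {k j k' j' : ZMod 2} {S S' : Finset Pg} (h : dW k j S = dW k' j' S') :
    k = k' ∧ j = j' ∧ S = S' := by
  rw [← mu8, ← mu8] at h
  obtain ⟨h1, h2⟩ := bad8.mul_inj (S := S) (T := S') h
  refine ⟨congrArg Prod.fst h1, ?_, h2⟩
  have h3 := congrFun (congrArg Prod.snd h1) ()
  simp only [add_left_inj] at h3
  exact h3

/-- A class which is not divisible by `2` together with the modulus `m`, a divisor of a power of `2`. -/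
theorem cls_two {m u : 𝓞 K8} {n : ℕ} (hm : m ∣ 2 ^ n) (hu : ¬ ((2 : 𝓞 K8) ∣ m ∧ (2 : 𝓞 K8) ∣ u)) :
    ∀ p : 𝓞 K8, Prime p → ¬ (p ^ 2 ∣ m ∧ p ^ 2 ∣ u) := by
  rintro p hp ⟨h1, h2⟩
  have h3 : p ∣ 2 ^ n := ((dvd_pow_self p two_ne_zero).trans h1).trans hm
  have h4 : p ∣ lam := by
    have h5 := hp.dvd_of_dvd_pow h3
    rw [two_eq, dvd_neg] at h5
    exact hp.dvd_of_dvd_pow h5
  obtain ⟨t, ht⟩ := (hp.associated_of_dvd lam_prime h4).symm.pow_pow (n := 2)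
  have h5 : (2 : 𝓞 K8) ∣ p ^ 2 := by
    rw [two_eq, neg_dvd]
    exact ⟨t, ht.symm⟩
  exact hu ⟨h5.trans h1, h5.trans h2⟩

/-- **The density in the form of the final statement.** -/
theorem limit8' {m u : 𝓞 K8} {n : ℕ} (hm : m ∣ 2 ^ n)
    (hu : ¬ ((2 : 𝓞 K8) ∣ m ∧ (2 : 𝓞 K8) ∣ u)) (P : 𝓞 K8 → Prop)
    (hP : ∀ k j S, (P (dW k j S) ↔ GW k j S ≠ 0)) :
    Filter.Tendsto (fun X : ℝ =>
      (Nat.card {x : 𝓞 K8 // Squarefree x ∧ m ∣ x - u ∧ |Algebra.norm ℤ x| ≤ X ∧ P x} : ℝ) /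
        (Nat.card {x : 𝓞 K8 // Squarefree x ∧ m ∣ x - u ∧ |Algebra.norm ℤ x| ≤ X} : ℝ))
      Filter.atTop (nhds cinf2) := by
  refine den8 hm (cls_two hm hu) P fun x hx => ?_
  obtain ⟨k, j, S, rfl⟩ := exists_dW hx
  rw [hP]
  constructor
  · intro h
    exact ⟨k, j, S, rfl, h⟩
  · rintro ⟨k', j', S', h1, h2⟩
    obtain ⟨rfl, rfl, rfl⟩ := dW_inj h1
    exact h2

end

end Pool.Agent.Lib.MP_1a91b9_ntW
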