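import Pool.Agent.Lib.MP_1a91b9_ntW.R.Cnt8
import Pool.Agent.Lib.MP_1a91b9_ntR.OKt
import Pool.Agent.Lib.MP_1a91b9_ntW.D.SysW

/-!
# Phase 6, `ℚ(√-2)`: the hypotheses of the abstract engine

`D8`: the data `s q p = (p / q)`, `a q = (a_q, l_q)`; `w8 = (1, 0)`.
-/

set_option autoImplicit false

namespace Pool.Agent.Lib.MP_1a91b9_ntW

open NumberField Finset
open Pool.Agent.Lib.MP_1a91b9_ntH (PS pr mem_pr sg)
open Pool.Agent.Lib.MP_1a91b9_ntR (nG Qi Pri sys Rcp)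
open Pool.Agent.Lib.MP_1a91b9_ntV (SumB OKt)
open Pool.Agent.Lib.MP_1a91b9_ntQ (Dat2)

noncomputable section

/-- The class characters. -/
def cl8 : Fin 2 → 𝓞 K8 → ZMod 2 := ![aa, ll]

/-- The vector of the reciprocity law. -/
def w8 : Fin 2 → ZMod 2 := ![1, 0]

/-- The data of the engine: `s q p` is the symbol of `p` modulo `q`. -/
def D8 : Dat2 Pg (Fin 2) where
  s q p := sy q p
  a q j := cl8 j q.1

theorem sum_w8 (x : 𝓞 K8) : ∑ j, w8 j * cl8 j x = aa x := by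
  rw [Fin.sum_univ_two]
  simp [w8, cl8]

theorem dg_w8 (q : Pg) : D8.dg w8 q = aa q.1 := sum_w8 q.1

theorem rcp8 : Rcp (R := 𝓞 K8) cl8 w8 := by
  intro p q h
  rw [sum_w8, sum_w8]
  exact cc_recip p q h

theorem coprime_two_pow {x : 𝓞 K8} (h : ¬ lam ∣ x) (n : ℕ) : IsCoprime x ((2 : 𝓞 K8) ^ n) := by
  have h2 : IsCoprime x (2 : 𝓞 K8) := by
    have h4 : IsCoprime x ((2 : 𝓞 K8) ^ 2) := by
      have e : (2 : 𝓞 K8) ^ 2 = 4 := by norm_num
      rw [e]
      exact coprime_four h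
    exact (IsCoprime.pow_right_iff (by norm_num)).1 h4
  exact h2.pow_right

theorem mod8 (n : ℕ) : (sys (𝓞 K8)).Mod ((2 : 𝓞 K8) ^ (n + 3)) where
  dvd := ⟨(2 : 𝓞 K8) ^ (n + 1), by
    change (2 : 𝓞 K8) ^ (n + 3) = 4 * _
    ring⟩
  cop x hx := coprime_two_pow (Pr.odd hx) _

theorem two_pow_ne (n : ℕ) : (2 : 𝓞 K8) ^ (n + 3) ≠ 0 := by
  apply pow_ne_zero
  rw [two_eq]
  exact neg_ne_zero.2 (pow_ne_zero _ lam_ne_zero)

theorem eight_dvd {n : ℕ} {z : 𝓞 K8} (h : (2 : 𝓞 K8) ^ (n + 3) ∣ z) : (8 : 𝓞 K8) ∣ z := by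
  refine Dvd.dvd.trans ⟨(2 : 𝓞 K8) ^ n, ?_⟩ h
  ring

theorem cls8 (n : ℕ) : (sys (𝓞 K8)).Cls ((2 : 𝓞 K8) ^ (n + 3)) cl8 where
  mul j x y hx hy := by
    fin_cases j
    · exact aa_mul hx hy
    · exact ll_mul hx hy
  per j x y hx h := by
    have h8 := eight_dvd h
    fin_cases j
    · exact aa_congr (Dvd.dvd.trans ⟨2, by norm_num⟩ h8)
    · refine ll_congr (Dvd.dvd.trans ⟨-lam, ?_⟩ h8)
      linear_combination 4 * lam_sq
  indep c hc := by
    have hv : ∀ x : 𝓞 K8, ∑ j, c j * cl8 j x = c 0 * aa x + c 1 * ll x := by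
      intro x
      rw [Fin.sum_univ_two]
      rfl
    have e5 : cz (((5 : ℤ) : 𝓞 K8)) = (5, 0) := by
      unfold cz
      rw [cp_intCast]
      rfl
    have e1 : cz (((1 : ℤ) : 𝓞 K8) + ((1 : ℤ) : 𝓞 K8) * lam) = (1, 1) := by
      unfold cz
      rw [cp_coords]
      rfl
    by_cases h1 : c 1 = 0
    · refine ⟨((1 : ℤ) : 𝓞 K8) + ((1 : ℤ) : 𝓞 K8) * lam, ?_, ?_⟩
      · change Pr _
        rw [Pr, e1]
        decide
      · have h0 : c 0 ≠ 0 := by
          intro h0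
          apply hc
          funext j
          fin_cases j
          · exact h0
          · exact h1
        rw [hv, h1, zero_mul, add_zero, aa, e1]
        have h2 : az 1 = 1 := by decide
        rw [h2, mul_one]
        exact h0
    · refine ⟨((5 : ℤ) : 𝓞 K8), ?_, ?_⟩
      · change Pr _
        rw [Pr, e5]
        decide
      · rw [hv, aa, ll, e5]
        have h2 : az 0 = 0 := by decide
        have h3 : lz 5 0 = 1 := by decide
        rw [h2, h3, mul_zero, zero_add, mul_one]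
        exact h1

theorem okt8 : OKt D8 w8 := by
  have h := Pool.Agent.Lib.MP_1a91b9_ntR.okt (R := 𝓞 K8) rcp8 (mod8 0) (two_pow_ne 0) (cls8 0)
  rw [ps_eq] at h
  have e : Pool.Agent.Lib.MP_1a91b9_ntR.dR (R := 𝓞 K8) cl8 = D8 := by
    unfold Pool.Agent.Lib.MP_1a91b9_ntR.dR D8
    congr 1
    funext q p
    exact (sy_eq q p).symm
  rw [e] at h
  exact h

/-- **The hypotheses of the engine for `ℚ(√-2)`.** -/
theorem okw8 : OKw D8 w8 where
  toOKt := okt8
  w0 := by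
    intro h
    have := congrFun h 0
    exact one_ne_zero this
  cbn := by
    obtain ⟨C, hC⟩ := cbn8'
    refine ⟨C, ?_⟩
    have e : (fun q : Pg => -D8.ch ∅ w8 q) = fun q : Pg => -sg (aa q.1) := by
      funext q
      rw [ch_empty, dg_w8]
    rw [e]
    exact hC

end

end Pool.Agent.Lib.MP_1a91b9_ntW
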